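import Pool.Agent.U435.SP.Cons

/-!
# Mixed motives over a field and over an extension: bundled data
-/

set_option autoImplicit false

open CategoryTheory Limits MonoidalCategory Pretriangulated

namespace Pool.Agent.U435.SP

open Pool.Agent.U735.CV Pool.Agent.Y116.MT

universe v u v' u' w

/-- The derived category of finite dimensional vector spaces over `E` (the values of the
realisations). -/
structure Coefficients (E : Type w) [Field E] where
  /-- the objects -/
  D : Type u'
  [category : Category.{v'} D]
  [preadditive : Preadditive D]
  [zero : HasZeroObject D]
  [shift : HasShift D ℤ]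
  [shiftAdditive : ∀ n : ℤ, (shiftFunctor D n).Additive]
  [pretriangulated : Pretriangulated D]
  [monoidal : MonoidalCategory D]
  [symmetric : SymmetricCategory D]
  [monoidalPreadditive : MonoidalPreadditive D]
  [linear : Linear E D]
  [monoidalLinear : MonoidalLinear E D]
  vectorLike : IsVectorLike E D
  sections : HasSections D

attribute [instance] Coefficients.category Coefficients.preadditive Coefficients.zero
  Coefficients.shift Coefficients.shiftAdditive Coefficients.pretriangulated
  Coefficients.monoidal Coefficients.symmetric Coefficients.monoidalPreadditive
  Coefficients.linear Coefficients.monoidalLinear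

/-- The category `C` of geometric motives over the field `k` with rational coefficients, its Chow
motives, and its realisation `F` with the part `W` of weight zero of the zeroth cohomology. -/
structure BaseMotives {E : Type w} [Field E] (T : Coefficients.{v', u', w} E) where
  /-- the objects -/
  C : Type u
  [category : Category.{v} C]
  [preadditive : Preadditive C]
  [zero : HasZeroObject C]
  [shift : HasShift C ℤ]
  [shiftAdditive : ∀ n : ℤ, (shiftFunctor C n).Additive]
  [pretriangulated : Pretriangulated C]
  [triangulated : IsTriangulated C]
  [monoidal : MonoidalCategory C]
  [symmetric : SymmetricCategory C]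
  [tensor : TensorTriangulated C]
  [monoidalPreadditive : MonoidalPreadditive C]
  [rigid : RightRigidCategory C]
  [linear : Linear ℚ C]
  unit_end : ∀ e : 𝟙_ C ⟶ 𝟙_ C, ∃ q : ℚ, e = q • 𝟙 (𝟙_ C)
  /-- the Chow motives -/
  Chow : ObjectProperty C
  isChowClass : IsChowClass Chow
  /-- the realisation -/
  F : C ⥤ T.D
  [braided : F.Braided]
  [additive : F.Additive]
  [commShift : F.CommShift ℤ]
  [isTriangulated : F.IsTriangulated]
  nilTrace : NilTrace Chow F
  /-- the part of weight zero -/
  W : WeightZero Chow F E

attribute [instance] BaseMotives.category BaseMotives.preadditive BaseMotives.zero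
  BaseMotives.shift BaseMotives.shiftAdditive BaseMotives.pretriangulated
  BaseMotives.triangulated BaseMotives.monoidal BaseMotives.symmetric BaseMotives.tensor
  BaseMotives.monoidalPreadditive BaseMotives.rigid BaseMotives.linear BaseMotives.braided
  BaseMotives.additive BaseMotives.commShift BaseMotives.isTriangulated

/-- The category of geometric motives over the extension `K` of `k`, its Chow motives, its
realisation `F`, and the base change `b` from `k` to `K`. -/
structure ExtensionMotives {E : Type w} [Field E] {T : Coefficients.{v', u', w} E}
    (M : BaseMotives.{v, u} T) where
  /-- the objects -/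
  C : Type u
  [category : Category.{v} C]
  [preadditive : Preadditive C]
  [monoidal : MonoidalCategory C]
  /-- the Chow motives -/
  Chow : ObjectProperty C
  /-- the realisation -/
  F : C ⥤ T.D
  [monoidalF : F.Monoidal]
  /-- the base change -/
  b : M.C ⥤ C
  [monoidalb : b.Monoidal]
  [additiveb : b.Additive]
  [faithful : b.Faithful]
  spreading : IsSpreading b M.Chow Chow M.F F

attribute [instance] ExtensionMotives.category ExtensionMotives.preadditive
  ExtensionMotives.monoidal ExtensionMotives.monoidalF ExtensionMotives.monoidalb
  ExtensionMotives.additiveb ExtensionMotives.faithful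

theorem voevodsky_iff {E : Type w} [Field E] [CharZero E] {T : Coefficients.{v', u', w} E}
    {M : BaseMotives.{v, u} T} (N : ExtensionMotives M) :
    Voevodsky N.Chow ↔ Voevodsky M.Chow :=
  main M.isChowClass T.vectorLike T.sections M.unit_end M.nilTrace M.W N.b N.spreading

end Pool.Agent.U435.SP
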