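import Pool.Agent.U435.SP.Bundle

/-!
# Mixed motives over an extension with all morphisms: bundled data
-/

set_option autoImplicit false

open CategoryTheory Limits MonoidalCategory Pretriangulated

namespace Pool.Agent.U435.SP

open Pool.Agent.U735.CV Pool.Agent.Y116.MT

universe v u v' u' w

/-- The tensor triangulated category of geometric motives over the extension `K` of `k`, its
realisation `F`, and the base change `b` from `k` to `K`. -/
structure MixedExtension {E : Type w} [Field E] {T : Coefficients.{v', u', w} E}
    (M : BaseMotives.{v, u} T) where
  /-- the objects -/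
  C : Type u
  [category : Category.{v} C]
  [preadditive : Preadditive C]
  [zero : HasZeroObject C]
  [shift : HasShift C ℤ]
  [shiftAdditive : ∀ n : ℤ, (shiftFunctor C n).Additive]
  [pretriangulated : Pretriangulated C]
  [monoidal : MonoidalCategory C]
  [monoidalPreadditive : MonoidalPreadditive C]
  [rigid : RightRigidCategory C]
  /-- the realisation -/
  F : C ⥤ T.D
  [monoidalF : F.Monoidal]
  [additive : F.Additive]
  [commShift : F.CommShift ℤ]
  [isTriangulated : F.IsTriangulated]
  /-- the base change -/
  b : M.C ⥤ C
  [monoidalb : b.Monoidal]
  [additiveb : b.Additive]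
  [faithful : b.Faithful]
  /-- the realisation is compatible with base change -/
  comparison : b ⋙ F ≅ M.F
  spreadsOut : SpreadsOut M.F F
  morphisms : MorphismsSpreadOut M.F F

attribute [instance] MixedExtension.category MixedExtension.preadditive MixedExtension.zero
  MixedExtension.shift MixedExtension.shiftAdditive MixedExtension.pretriangulated
  MixedExtension.monoidal MixedExtension.monoidalPreadditive MixedExtension.rigid
  MixedExtension.monoidalF MixedExtension.additive MixedExtension.commShift
  MixedExtension.isTriangulated MixedExtension.monoidalb MixedExtension.additiveb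
  MixedExtension.faithful

variable {E : Type w} [Field E] {T : Coefficients.{v', u', w} E} {M : BaseMotives.{v, u} T}

theorem conservative_iff' (N : MixedExtension M) :
    N.F.ReflectsIsomorphisms ↔ M.F.ReflectsIsomorphisms :=
  conservative_iff N.spreadsOut N.b N.comparison

theorem conservative_of_split (N : MixedExtension M) (W : Weights M.Chow M.F E)
    (h : ReflectsSplitMono M.Chow M.F) : N.F.ReflectsIsomorphisms :=
  (conservative_iff' N).2
    (conservative_of_splitMono M.isChowClass.summand M.isChowClass.generate W h)

theorem split_of_iso [CharZero E] (h1 : ReflectsIso M.Chow M.F) (h2 : HomEqualsNum M.Chow M.F) :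
    ReflectsSplitMono M.Chow M.F := by
  intro P Q f hP hQ' hf
  obtain ⟨g, hg⟩ := regular_hom M.isChowClass T.vectorLike M.unit_end h2 M.nilTrace hP hQ' f
  have h3 : M.F.map (f ≫ g) = 𝟙 _ := by
    have h4 := congrArg (fun x => x ≫ retraction (M.F.map f)) hg
    simpa using h4
  have h4 : IsIso (f ≫ g) := h1 P P _ hP hP (by rw [h3]; infer_instance)
  exact ⟨⟨⟨g ≫ inv (f ≫ g), by rw [← Category.assoc, IsIso.hom_inv_id]⟩⟩⟩

theorem mixedNilpotence_iff' (N : MixedExtension M) :
    MixedNilpotence N.F ↔ MixedNilpotence M.F :=
  mixedNilpotence_iff N.morphisms N.b fun {X Y} f hf => by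
    have h := N.comparison.hom.naturality f
    rw [hf, comp_zero] at h
    rw [← cancel_mono (N.comparison.hom.app Y), zero_comp]
    exact h

theorem conservative_of_mixedNilpotence (N : MixedExtension M) (h : MixedNilpotence N.F) :
    N.F.ReflectsIsomorphisms :=
  conservative_of_zero (zero_of_mixedNilpotence h)

end Pool.Agent.U435.SP
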