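import Pool.Agent.U435.SP.Main

/-!
# Conservativity of the realisation and extensions of the base field
-/

set_option autoImplicit false
set_option linter.unusedSectionVars false
set_option linter.unusedSimpArgs false
set_option backward.isDefEq.respectTransparency false
set_option backward.defeqAttrib.useBackward true

open CategoryTheory Limits MonoidalCategory Pretriangulated Triangulated
open Functor.LaxMonoidal Functor.OplaxMonoidal

namespace Pool.Agent.U435.SP

open Pool.Agent.U735.CV Pool.Agent.Y116.MT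

universe v u v' u' w

section defs

variable {C : Type u} [Category.{v} C] [Preadditive C] [MonoidalCategory C]
  {C' : Type u} [Category.{v} C'] [Preadditive C'] [MonoidalCategory C']
  {D : Type u'} [Category.{v'} D] [Preadditive D]

/-- `Van` is the class of the motives over `U` with zero realisation (on `U(ℂ)`): it is closed
under tensor products with arbitrary motives over `U`, and the realisation of `low X` is the
homology of `U(ℂ)` with coefficients in the realisation of `X`. -/
structure IsVanishing (U : Model C C') (F : C ⥤ D) (Van : ObjectProperty U.M) : Prop where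
  tensor {X : U.M} (Y : U.M) : Van X → Van (Y ⊗ X)
  low {X : U.M} : Van X → IsZero (F.obj (U.low.obj X))

/-- Every motive over `K` with zero realisation is the pull-back of a motive over a smooth
connected `k`-variety `U` which has a dual and zero realisation on `U(ℂ)`. -/
def SpreadsOut (F : C ⥤ D) (F' : C' ⥤ D) : Prop :=
  ∀ X : C', IsZero (F'.obj X) → ∃ (U : Model C C') (Van : ObjectProperty U.M) (X₀ Y₀ : U.M),
    IsVanishing U F Van ∧ Van X₀ ∧ Nonempty (ExactPairing X₀ Y₀) ∧
      Nonempty (U.gen.obj X₀ ≅ X)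

end defs

section zero

variable {C : Type u} [Category.{v} C] [Preadditive C] [MonoidalCategory C]
  {C' : Type u} [Category.{v} C'] [Preadditive C'] [MonoidalCategory C']
  {D : Type u'} [Category.{v'} D] [Preadditive D] {F : C ⥤ D} {F' : C' ⥤ D}

/-- If `F` detects zero objects then so does `F'`. -/
lemma zero_of_spreadsOut (hs : SpreadsOut F F') (h : ∀ X : C, IsZero (F.obj X) → IsZero X) (X : C')
    (hX : IsZero (F'.obj X)) : IsZero X := by
  obtain ⟨U, Van, X₀, Y₀, hV, hX₀, ⟨hex⟩, ⟨i⟩⟩ := hs X hX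
  have h1 : IsZero (U.low.obj (Y₀ ⊗ X₀)) := h _ (hV.low (hV.tensor Y₀ hX₀))
  have h2 : ε_ X₀ Y₀ = 0 := by
    rw [of_flat U (ε_ X₀ Y₀), h1.eq_of_src (U.flat _) 0, Functor.map_zero]
    simp
  have h3 : 𝟙 X₀ = 0 := by
    have h4 := ExactPairing.evaluation_coevaluation X₀ Y₀
    rw [h2] at h4
    have h5 : (λ_ X₀).hom ≫ (ρ_ X₀).inv = 0 := by
      rw [← h4]
      simp
    rw [← Iso.inv_hom_id (λ_ X₀), ← Category.comp_id (λ_ X₀).hom, ← Iso.inv_hom_id (ρ_ X₀),
      reassoc_of% h5]
    simp
  have h4 : IsZero (U.gen.obj X₀) := by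
    rw [IsZero.iff_id_eq_zero, ← CategoryTheory.Functor.map_id, h3, Functor.map_zero]
  exact h4.of_iso i.symm

end zero

section cons

variable {C : Type u} [Category.{v} C] [Preadditive C] [HasZeroObject C] [HasShift C ℤ]
  [∀ n : ℤ, (shiftFunctor C n).Additive] [Pretriangulated C] [MonoidalCategory C]
  {C' : Type u} [Category.{v} C'] [Preadditive C'] [HasZeroObject C'] [HasShift C' ℤ]
  [∀ n : ℤ, (shiftFunctor C' n).Additive] [Pretriangulated C'] [MonoidalCategory C']
  {D : Type u'} [Category.{v'} D] [Preadditive D] [HasZeroObject D] [HasShift D ℤ]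
  [∀ n : ℤ, (shiftFunctor D n).Additive] [Pretriangulated D]
  {F : C ⥤ D} [F.Additive] [F.CommShift ℤ] [F.IsTriangulated]
  {F' : C' ⥤ D} [F'.Additive] [F'.CommShift ℤ] [F'.IsTriangulated]

lemma conservative_of_zero (h : ∀ X : C, IsZero (F.obj X) → IsZero X) :
    F.ReflectsIsomorphisms := by
  refine ⟨fun {X Y} f hf => ?_⟩
  obtain ⟨Z, g, i, hT⟩ := distinguished_cocone_triangle f
  have h1 : IsZero (F.obj Z) := (Triangle.isZero₃_iff_isIso₁ _ (F.map_distinguished _ hT)).2 hf
  exact (Triangle.isZero₃_iff_isIso₁ _ hT).1 (h Z h1)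

omit [HasZeroObject D] [HasShift D ℤ] [∀ n : ℤ, (shiftFunctor D n).Additive] [Pretriangulated D]
  [F.CommShift ℤ] [F.IsTriangulated] in
lemma zero_of_conservative [F.ReflectsIsomorphisms] (X : C) (h : IsZero (F.obj X)) :
    IsZero X := by
  have h1 : IsIso (F.map (0 : X ⟶ X)) := ⟨0, h.eq_of_src _ _, h.eq_of_src _ _⟩
  have h2 : IsIso (0 : X ⟶ X) := isIso_of_reflects_iso _ F
  rw [IsZero.iff_id_eq_zero, ← IsIso.hom_inv_id (0 : X ⟶ X), zero_comp]

/-- Conservativity over `K` and over `k`. -/
theorem conservative_iff (hs : SpreadsOut F F') (b : C ⥤ C') [b.Additive] [b.Faithful]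
    (c : b ⋙ F' ≅ F) : F'.ReflectsIsomorphisms ↔ F.ReflectsIsomorphisms := by
  constructor
  · intro h
    apply conservative_of_zero
    intro X hX
    have h1 : IsZero (F'.obj (b.obj X)) := hX.of_iso (c.app X)
    have h2 := zero_of_conservative (F := F') _ h1
    rw [IsZero.iff_id_eq_zero] at h2 ⊢
    apply b.map_injective
    rw [CategoryTheory.Functor.map_id, h2, Functor.map_zero]
  · intro h
    exact conservative_of_zero (zero_of_spreadsOut hs fun X => zero_of_conservative X)

end cons

section nil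

variable {C : Type u} [Category.{v} C] [Preadditive C] [MonoidalCategory C]
  {C' : Type u} [Category.{v} C'] [Preadditive C'] [MonoidalCategory C']
  {D : Type u'} [Category.{v'} D] [Preadditive D]

/-- The nilpotence conjecture for all mixed motives: morphisms `X ⟶ 𝟙` with zero realisation are
smash-nilpotent. -/
def MixedNilpotence (F : C ⥤ D) : Prop := ∀ (X : C) (z : X ⟶ 𝟙_ C), F.map z = 0 → SmashNil z

/-- Every morphism `z : X ⟶ 𝟙` over `K` with zero realisation comes from a morphism over a smooth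
connected `k`-variety `U` some exterior power of which over `U` is zero in the cohomology of
`U(ℂ)` (spectral sequence of Leray). -/
def MorphismsSpreadOut (F : C ⥤ D) (F' : C' ⥤ D) : Prop :=
  ∀ (X : C') (z : X ⟶ 𝟙_ C'), F'.map z = 0 → ∃ (U : Model C C') (X₀ : U.M) (z₀ : X₀ ⟶ 𝟙_ U.M)
    (i : U.gen.obj X₀ ≅ X), i.hom ≫ z = U.gen.map z₀ ≫ η U.gen ∧ U.HomNil F z₀

variable {F : C ⥤ D} {F' : C' ⥤ D}

lemma smashNil_of_mixed (h : MixedNilpotence F) (U : Model C C') {X : U.M} (z : X ⟶ 𝟙_ U.M)
    (hz : U.HomNil F z) : SmashNil z := by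
  induction hz with
  | zero z hz =>
    rw [of_flat U z]
    exact ((h _ _ hz).map U.pull).precomp _
  | step z _ ih => exact SmashNil.step z ih

theorem mixedNilpotence_iff (hs : MorphismsSpreadOut F F') (b : C ⥤ C') [b.Monoidal] [b.Additive]
    [b.Faithful] (hb : ∀ {X Y : C} (f : X ⟶ Y), F.map f = 0 → F'.map (b.map f) = 0) :
    MixedNilpotence F' ↔ MixedNilpotence F := by
  constructor
  · intro h X z hz
    have h1 : (b ⋙ F').map z = 0 := hb z hz
    refine SmashNil.of_map b (h (b.obj X) (b.map z ≫ η b) ?_) z (𝟙 _) (by simp)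
    rw [Functor.map_comp, hb z hz, zero_comp]
  · intro h X z hz
    obtain ⟨U, X₀, z₀, i, hi, hn⟩ := hs X z hz
    have h4 := (smashNil_of_mixed h U z₀ hn).map U.gen
    rw [← hi] at h4
    have h5 := h4.precomp i.inv
    rwa [Iso.inv_hom_id_assoc] at h5

/-- An object on which a smash-nilpotent cycle is a split epimorphism is zero. -/
lemma zero_of_smashNil [MonoidalPreadditive C] {A : C} {w : A ⟶ 𝟙_ C} (h : SmashNil w) (X : C) :
    ∀ s : X ⟶ X ⊗ A, s ≫ X ◁ w ≫ (ρ_ X).hom = 𝟙 X → IsZero X := by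
  induction h with
  | zero A =>
    intro s hs
    rw [IsZero.iff_id_eq_zero, ← hs]
    simp
  | step w _ ih =>
    intro s hs
    refine ih (s ≫ s ▷ _ ≫ (α_ _ _ _).hom) ?_
    have h1 : s ▷ _ ≫ (α_ _ _ _).hom ≫ X ◁ sq w ≫ (ρ_ X).hom =
        X ◁ w ≫ (ρ_ X).hom := by
      have h2 : (α_ _ _ _).hom ≫ X ◁ sq w ≫ (ρ_ X).hom =
          (X ◁ w ≫ (ρ_ X).hom) ▷ _ ≫ X ◁ w ≫ (ρ_ X).hom := by
        rw [sq, MonoidalCategory.tensorHom_def]
        simp [unitors_equal]
      rw [h2, ← Category.assoc, ← comp_whiskerRight, hs]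
      simp
    simp only [Category.assoc]
    rw [h1, hs]

/-- The nilpotence conjecture implies conservativity. -/
lemma zero_of_mixedNilpotence [MonoidalPreadditive C] [RightRigidCategory C] [MonoidalCategory D]
    [MonoidalPreadditive D] [F.Monoidal] (h : MixedNilpotence F) (X : C)
    (hX : IsZero (F.obj X)) : IsZero X := by
  have h1 : F.map (ε_ X Xᘁ) = 0 := by
    have h2 : IsZero (F.obj (Xᘁ ⊗ X)) := by
      have h3 : IsZero (F.obj Xᘁ ⊗ F.obj X) := by
        rw [IsZero.iff_id_eq_zero, ← MonoidalCategory.whiskerLeft_id,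
          hX.eq_of_src (𝟙 (F.obj X)) 0]
        simp
      exact h3.of_iso (Functor.Monoidal.μIso F Xᘁ X).symm
    exact h2.eq_of_src _ _
  refine zero_of_smashNil (h _ _ h1) X ((λ_ X).inv ≫ η_ X Xᘁ ▷ X ≫ (α_ _ _ _).hom) ?_
  simp only [Category.assoc]
  rw [ExactPairing.evaluation_coevaluation_assoc]
  simp

end nil

end Pool.Agent.U435.SP
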