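import Pool.Agent.U735.CV.Defs

/-!
# Spreading out of mixed motives: definitions

The cycles on the Chow motive `Q` are written as morphisms `z : Q ⟶ 𝟙`; for
`Q = M(X)(-r)[-2r]` these are the elements of `CH^r(X)` with rational coefficients.
-/

set_option autoImplicit false

open CategoryTheory Limits MonoidalCategory Pretriangulated
open Functor.LaxMonoidal Functor.OplaxMonoidal

namespace Pool.Agent.U435.SP

open Pool.Agent.U735.CV

universe v u v' u' w

section nil

variable {C : Type u} [Category.{v} C] [MonoidalCategory C]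

/-- The exterior product `z × z` of the cycle `z` with itself. -/
def sq {Q : C} (z : Q ⟶ 𝟙_ C) : Q ⊗ Q ⟶ 𝟙_ C := (z ⊗ₘ z) ≫ (λ_ (𝟙_ C)).hom

/-- The cycle `z` is smash-nilpotent: `z = 0` or the cycle `z × z` is smash-nilpotent. So the
exterior product of `2 ^ n` copies of `z` is zero, for some `n`. -/
inductive SmashNil [Preadditive C] : ∀ {Q : C}, (Q ⟶ 𝟙_ C) → Prop
  | zero (Q : C) : SmashNil (0 : Q ⟶ 𝟙_ C)
  | step {Q : C} (z : Q ⟶ 𝟙_ C) : SmashNil (sq z) → SmashNil z

/-- The cycle `z` is numerically trivial. -/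
def NumTrivial [Preadditive C] {Q : C} (z : Q ⟶ 𝟙_ C) : Prop := ∀ v : 𝟙_ C ⟶ Q, v ≫ z = 0

/-- Voevodsky's conjecture for the motives in `Chow`: numerically trivial cycles are
smash-nilpotent. -/
def Voevodsky [Preadditive C] (Chow : ObjectProperty C) : Prop :=
  ∀ (Q : C) (z : Q ⟶ 𝟙_ C), Chow Q → NumTrivial z → SmashNil z

end nil

/-- The part `H` of weight zero of the zeroth cohomology of the realisation `F`: the `i`-th
cohomology of a Chow motive is pure of weight `i`, and morphisms from the unit are determined by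
their effect on the part of weight zero. -/
structure WeightZero {C : Type u} [Category.{v} C] [Preadditive C] [HasZeroObject C]
    [HasShift C ℤ] [∀ n : ℤ, (shiftFunctor C n).Additive] [Pretriangulated C] [MonoidalCategory C]
    {D : Type u'} [Category.{v'} D] [Preadditive D] (Chow : ObjectProperty C) (F : C ⥤ D)
    (E : Type w) [Field E] where
  /-- the part of weight zero -/
  H : C ⥤ ModuleCat.{w} E
  homological : H.IsHomological
  pure (P : C) (i : ℤ) : Chow P → i ≠ 0 → IsZero (H.obj (P⟦i⟧))
  map_zero {X Y : C} (f : X ⟶ Y) : F.map f = 0 → H.map f = 0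
  unit {X : C} (f : 𝟙_ C ⟶ X) : H.map f = 0 → F.map f = 0

/-- A nonzero morphism to the unit of `D` has a section. -/
def HasSections (D : Type u') [Category.{v'} D] [Preadditive D] [MonoidalCategory D] : Prop :=
  ∀ (X : D) (w : X ⟶ 𝟙_ D), w ≠ 0 → ∃ s : 𝟙_ D ⟶ X, s ≫ w = 𝟙 _

section model

variable {C : Type u} [Category.{v} C] [Preadditive C] [MonoidalCategory C]
  {C' : Type u} [Category.{v} C'] [Preadditive C'] [MonoidalCategory C']

/-- The motives over a smooth connected `k`-variety `U` with a point `η` with values in the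
extension `K` of `k`: the category of motives over `U`, the Chow motives over `U`, the pull-back
`pull` from `k` to `U` with its left adjoint `low`, and the pull-back `gen` to `K` along `η`. The
field `point` is the class of a closed point of `U` divided by its degree. -/
structure Model (C : Type u) [Category.{v} C] [Preadditive C] [MonoidalCategory C] (C' : Type u)
    [Category.{v} C'] [Preadditive C'] [MonoidalCategory C'] where
  /-- the motives over `U` -/
  M : Type u
  [category : Category.{v} M]
  [preadditive : Preadditive M]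
  [monoidal : MonoidalCategory M]
  [monoidalPreadditive : MonoidalPreadditive M]
  /-- the Chow motives over `U` -/
  Chow : ObjectProperty M
  /-- the pull-back from `k` to `U` -/
  pull : C ⥤ M
  [pullMonoidal : pull.Monoidal]
  [pullAdditive : pull.Additive]
  /-- the left adjoint of `pull` -/
  low : M ⥤ C
  [lowAdditive : low.Additive]
  /-- the adjunction -/
  adj : low ⊣ pull
  /-- the pull-back from `U` to `K` -/
  gen : M ⥤ C'
  [genMonoidal : gen.Monoidal]
  [genAdditive : gen.Additive]
  /-- the class of degree one of a closed point of `U` -/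
  point : 𝟙_ C ⟶ low.obj (𝟙_ M)

attribute [instance] Model.category Model.preadditive Model.monoidal
  Model.monoidalPreadditive Model.pullMonoidal Model.pullAdditive Model.lowAdditive
  Model.genMonoidal Model.genAdditive

namespace Model

/-- The morphism `low Q ⟶ 𝟙` over `k` given by a morphism `z : Q ⟶ 𝟙` over `U`. For
`Q = M(X)(-r)[-2r]`, `X` smooth over `U`, this is the cycle `z` on `X` as a variety over `k`. -/
def flat (U : Model C C') {Q : U.M} (z : Q ⟶ 𝟙_ U.M) : U.low.obj Q ⟶ 𝟙_ C :=
  (U.adj.homEquiv _ _).symm (z ≫ ε U.pull)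

/-- Some exterior product `z × z × ⋯` over `U` has zero realisation as a cycle over `k`. -/
inductive HomNil (U : Model C C') {D : Type u'} [Category.{v'} D] [Preadditive D] (F : C ⥤ D) :
    ∀ {Q : U.M}, (Q ⟶ 𝟙_ U.M) → Prop
  | zero {Q : U.M} (z : Q ⟶ 𝟙_ U.M) : F.map (U.flat z) = 0 → HomNil U F z
  | step {Q : U.M} (z : Q ⟶ 𝟙_ U.M) : HomNil U F (sq z) → HomNil U F z

/-- Chow motives over `U` have duals, which are Chow motives over `U`. -/
def HasDuals (U : Model C C') : Prop :=
  ∀ Q : U.M, U.Chow Q → ∃ P : U.M, U.Chow P ∧ Nonempty (ExactPairing Q P)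

/-- `U` is connected: the endomorphisms of the unit come from `k`. -/
def IsConnected (U : Model C C') : Prop :=
  ∀ e : 𝟙_ U.M ⟶ 𝟙_ U.M, ∃ e₀ : 𝟙_ C ⟶ 𝟙_ C, e = ε U.pull ≫ U.pull.map e₀ ≫ η U.pull

/-- `U.point` has degree one. -/
def PointDegree (U : Model C C') : Prop := U.point ≫ U.flat (𝟙 (𝟙_ U.M)) = 𝟙 (𝟙_ C)

section

variable {D : Type u'} [Category.{v'} D] [Preadditive D]

/-- If the class of `z` in the cohomology of the fibre at `η` is zero then some exterior power of
`z` over `U` is zero in the cohomology of the total space (spectral sequence of Leray). -/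
def Leray (U : Model C C') (F : C ⥤ D) (F' : C' ⥤ D) : Prop :=
  ∀ (Q : U.M) (z : Q ⟶ 𝟙_ U.M), U.Chow Q → F'.map (U.gen.map z) = 0 → U.HomNil F z

/-- The push-forward to the total space of the restriction of the class of `f` to the fibre over
a closed point is zero only if the class of `f` in the cohomology of the fibre at `η` is zero
(semisimplicity of the monodromy, Deligne). -/
def Invariants (U : Model C C') (F : C ⥤ D) (F' : C' ⥤ D) : Prop :=
  ∀ (P : U.M) (f : 𝟙_ U.M ⟶ P), U.Chow P → F.map (U.point ≫ U.low.map f) = 0 →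
    F'.map (U.gen.map f) = 0

end

end Model

end model

section spreading

variable {C : Type u} [Category.{v} C] [Preadditive C] [HasZeroObject C] [HasShift C ℤ]
  [∀ n : ℤ, (shiftFunctor C n).Additive] [Pretriangulated C] [MonoidalCategory C]
  {C' : Type u} [Category.{v} C'] [Preadditive C'] [MonoidalCategory C']
  {D : Type u'} [Category.{v'} D] [Preadditive D]

/-- Motives of smooth varieties over `U` have weights at most zero over `k` (resolution of
singularities). -/
def LowWeights (U : Model C C') (Chow : ObjectProperty C) : Prop :=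
  ∀ Q : U.M, U.Chow Q → ∃ n : ℕ, ChowComplex Chow n (U.low.obj Q)

/-- The properties of the motives over `U` (known theorems). -/
structure IsModel (U : Model C C') (Chow : ObjectProperty C) (F : C ⥤ D) (F' : C' ⥤ D) :
    Prop where
  tensor : ∀ Q : U.M, U.Chow Q → U.Chow (Q ⊗ Q)
  dual : U.HasDuals
  connected : U.IsConnected
  point : U.PointDegree
  weights : LowWeights U Chow
  leray : U.Leray F F'
  invariants : U.Invariants F F'

/-- The cycle `z` over `K` comes from the cycle `z₀` over `U`. -/
def ComesFrom (U : Model C C') {Q : C'} (z : Q ⟶ 𝟙_ C') {Q₀ : U.M} (z₀ : Q₀ ⟶ 𝟙_ U.M) : Prop :=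
  ∃ i : U.gen.obj Q₀ ≅ Q, i.hom ≫ z = U.gen.map z₀ ≫ η U.gen

/-- The class `v` over `K` of an object coming from `k` comes from the class `v₀` over `U`. -/
def ClassComesFrom (b : C ⥤ C') (U : Model C C') {Q : C} (v : 𝟙_ C' ⟶ b.obj Q)
    (v₀ : 𝟙_ U.M ⟶ U.pull.obj Q) : Prop :=
  ∃ c : U.pull ⋙ U.gen ≅ b, v = ε U.gen ≫ U.gen.map v₀ ≫ c.hom.app Q

/-- `b : C ⥤ C'` is the base change of motives for the extension `K` of `k`, `F`, `F'` are the
realisations: cycles and classes over `K` come from cycles and classes over smooth connected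
`k`-varieties `U`. -/
structure IsSpreading (b : C ⥤ C') (Chow : ObjectProperty C) (Chow' : ObjectProperty C')
    (F : C ⥤ D) (F' : C' ⥤ D) : Prop where
  base {Q : C} : Chow Q → Chow' (b.obj Q)
  cycles (Q : C') (z : Q ⟶ 𝟙_ C') : Chow' Q → ∃ (U : Model C C') (Q₀ : U.M)
    (z₀ : Q₀ ⟶ 𝟙_ U.M), IsModel U Chow F F' ∧ U.Chow Q₀ ∧ ComesFrom U z z₀
  classes (Q : C) (v : 𝟙_ C' ⟶ b.obj Q) : ∃ (U : Model C C') (v₀ : 𝟙_ U.M ⟶ U.pull.obj Q),
    IsModel U Chow F F' ∧ ClassComesFrom b U v v₀

end spreading

end Pool.Agent.U435.SP
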