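import Pool.Agent.U435.SP.Wt

/-!
# Voevodsky's conjecture and extensions of the base field
-/

set_option autoImplicit false
set_option linter.unusedSectionVars false
set_option linter.unusedSimpArgs false
set_option backward.isDefEq.respectTransparency false
set_option backward.defeqAttrib.useBackward true

open CategoryTheory Limits MonoidalCategory Pretriangulated Triangulated
open Functor.LaxMonoidal Functor.OplaxMonoidal

namespace Pool.Agent.U435.SP

open Pool.Agent.U735.CV Pool.Agent.Y116.MT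

universe v u v' u' w

section flat

variable {C : Type u} [Category.{v} C] [Preadditive C] [MonoidalCategory C]
  {C' : Type u} [Category.{v} C'] [Preadditive C'] [MonoidalCategory C'] (U : Model C C')

lemma flat_comp {Q P : U.M} (e : Q ⟶ P) (z : P ⟶ 𝟙_ U.M) :
    U.flat (e ≫ z) = U.low.map e ≫ U.flat z := by
  rw [Model.flat, Model.flat, Category.assoc, Adjunction.homEquiv_naturality_left_symm]

lemma flat_zero (Q : U.M) : U.flat (0 : Q ⟶ 𝟙_ U.M) = 0 := by
  have h := flat_comp U (0 : Q ⟶ 𝟙_ U.M) (𝟙 _)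
  rw [zero_comp, Functor.map_zero, zero_comp] at h
  exact h

lemma of_flat {Q : U.M} (z : Q ⟶ 𝟙_ U.M) :
    z = U.adj.unit.app Q ≫ U.pull.map (U.flat z) ≫ η U.pull := by
  have h : U.adj.unit.app Q ≫ U.pull.map (U.flat z) = z ≫ ε U.pull := by
    have h1 := Adjunction.homEquiv_unit (adj := U.adj) (X := Q) (Y := 𝟙_ C) (f := U.flat z)
    rw [← h1, Model.flat, Equiv.apply_symm_apply]
  rw [reassoc_of% h]
  simp

lemma flat_unit_pull {P : U.M} (w : U.low.obj P ⟶ 𝟙_ C) :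
    U.flat (U.adj.unit.app P ≫ U.pull.map w ≫ η U.pull) = w := by
  rw [Model.flat]
  simp only [Category.assoc]
  rw [Functor.Monoidal.η_ε, Category.comp_id]
  have h1 := Adjunction.homEquiv_unit (adj := U.adj) (X := P) (Y := 𝟙_ C) (f := w)
  exact (congrArg _ h1.symm).trans (Equiv.symm_apply_apply _ _)

lemma flat_base (e₀ : 𝟙_ C ⟶ 𝟙_ C) :
    U.flat (ε U.pull ≫ U.pull.map e₀ ≫ η U.pull) = U.flat (𝟙 _) ≫ e₀ := by
  rw [Model.flat, Model.flat]
  simp only [Category.assoc, Category.id_comp]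
  rw [Functor.Monoidal.η_ε, Category.comp_id, Adjunction.homEquiv_naturality_right_symm]

end flat

section dual

variable {M : Type u} [Category.{v} M] [MonoidalCategory M] {Q P : M} [ExactPairing Q P]

/-- The class on the dual of a cycle. -/
def dualClass (P : M) [ExactPairing Q P] (z : Q ⟶ 𝟙_ M) : 𝟙_ M ⟶ P :=
  η_ Q P ≫ z ▷ P ≫ (λ_ P).hom

lemma of_dualClass (z : Q ⟶ 𝟙_ M) : z = (λ_ Q).inv ≫ dualClass P z ▷ Q ≫ ε_ Q P := by
  have h1 : (z ▷ P) ▷ Q ≫ (λ_ P).hom ▷ Q ≫ ε_ Q P =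
      (α_ Q P Q).hom ≫ Q ◁ ε_ Q P ≫ z ▷ 𝟙_ M ≫ (λ_ (𝟙_ M)).hom := by
    have h2 : (λ_ P).hom ▷ Q = (α_ (𝟙_ M) P Q).hom ≫ (λ_ (P ⊗ Q)).hom := by simp
    rw [h2, Category.assoc, ← leftUnitor_naturality, whisker_exchange_assoc]
    simp
  simp only [dualClass, comp_whiskerRight, Category.assoc]
  rw [h1, ExactPairing.evaluation_coevaluation_assoc]
  simp [unitors_equal]

lemma dualClass_comp (z : Q ⟶ 𝟙_ M) (w : P ⟶ 𝟙_ M) :
    dualClass P z ≫ w = (η_ Q P ≫ Q ◁ w ≫ (ρ_ Q).hom) ≫ z := by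
  simp only [dualClass, Category.assoc]
  rw [← leftUnitor_naturality, ← rightUnitor_naturality, whisker_exchange_assoc, unitors_equal]

end dual

section main

variable {C : Type u} [Category.{v} C] [Preadditive C] [HasZeroObject C] [HasShift C ℤ]
  [∀ n : ℤ, (shiftFunctor C n).Additive] [Pretriangulated C] [IsTriangulated C]
  [MonoidalCategory C] [SymmetricCategory C] [TensorTriangulated C] [MonoidalPreadditive C]
  [RightRigidCategory C] [Linear ℚ C]
  {C' : Type u} [Category.{v} C'] [Preadditive C'] [MonoidalCategory C']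
  {D : Type u'} [Category.{v'} D] [Preadditive D] [HasZeroObject D] [HasShift D ℤ]
  [∀ n : ℤ, (shiftFunctor D n).Additive] [Pretriangulated D] [MonoidalCategory D]
  [SymmetricCategory D] [MonoidalPreadditive D] {E : Type w} [Field E] [CharZero E] [Linear E D]
  [MonoidalLinear E D]
  {Chow : ObjectProperty C} {F : C ⥤ D} [F.Braided] [F.Additive] [F.CommShift ℤ]
  [F.IsTriangulated] {Chow' : ObjectProperty C'} {F' : C' ⥤ D} [F'.Monoidal]

/-- Numerically trivial cycles over `K` are homologically trivial. -/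
lemma map_zero_of_numTrivial (hQ' : ∀ e : 𝟙_ C ⟶ 𝟙_ C, ∃ q : ℚ, e = q • 𝟙 (𝟙_ C))
    (hn : HomEqualsNum Chow F)
    (W : WeightZero Chow F E) (h1 : (𝟙 (𝟙_ C') : 𝟙_ C' ⟶ 𝟙_ C') ≠ 0) (U : Model C C')
    (hU : IsModel U Chow F F') {Q : U.M} (hQ : U.Chow Q) (z : Q ⟶ 𝟙_ U.M) {A : C'}
    (i : U.gen.obj Q ≅ A) (z' : A ⟶ 𝟙_ C') (hz : i.hom ≫ z' = U.gen.map z ≫ η U.gen)
    (hz' : NumTrivial z') : F'.map (U.gen.map z) = 0 := by
  obtain ⟨P, hP, ⟨hex⟩⟩ := hU.dual _ hQ
  by_contra hne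
  have h2 : F'.map (U.gen.map (dualClass P z)) ≠ 0 := by
    intro h3
    apply hne
    have h4 : (U.gen ⋙ F').map (dualClass P z ▷ Q) = 0 := by
      rw [Functor.Monoidal.map_whiskerRight, Functor.comp_map, h3]
      simp
    have h5 : (U.gen ⋙ F').map z = 0 := by
      rw [of_dualClass (P := P) z, Functor.map_comp, Functor.map_comp, h4]
      simp
    exact h5
  have h3 : F.map (U.point ≫ U.low.map (dualClass P z)) ≠ 0 := fun h => h2 (hU.invariants _ _ hP h)
  obtain ⟨n, hw⟩ := hU.weights _ hP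
  obtain ⟨w, hw⟩ := exists_functional W hn n _ hw _ h3
  let w₀ : P ⟶ 𝟙_ U.M := U.adj.unit.app P ≫ U.pull.map w ≫ η U.pull
  obtain ⟨e₀, he⟩ := hU.connected (dualClass P z ≫ w₀)
  obtain ⟨q, hq⟩ := hQ' e₀
  have h4 : q ≠ 0 := by
    intro h5
    apply hw
    rw [hq, h5, zero_smul, Functor.map_zero, zero_comp, comp_zero] at he
    rw [← flat_unit_pull U w, Category.assoc, ← flat_comp, he, flat_zero, comp_zero]
  -- the test class over `K`
  have h5 := hz' (ε U.gen ≫ U.gen.map (η_ Q P ≫ Q ◁ w₀ ≫ (ρ_ Q).hom) ≫ i.hom)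
  rw [Category.assoc, Category.assoc, hz, ← Functor.map_comp_assoc, ← dualClass_comp, he] at h5
  have h6 : U.gen.map (ε U.pull ≫ U.pull.map e₀ ≫ η U.pull) = 0 := by
    rw [← cancel_mono (η U.gen), ← cancel_epi (ε U.gen), h5]
    simp
  have h7 : 𝟙 (U.gen.obj (𝟙_ U.M)) = 0 := by
    rw [← CategoryTheory.Functor.map_id]
    have h9 : e₀ ≫ (q⁻¹ • 𝟙 (𝟙_ C)) = 𝟙 _ := by
      rw [hq]
      simp [smul_smul, h4]
    have h8 : (𝟙 (𝟙_ U.M) : 𝟙_ U.M ⟶ 𝟙_ U.M) = (ε U.pull ≫ U.pull.map e₀ ≫ η U.pull) ≫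
        (ε U.pull ≫ U.pull.map (q⁻¹ • 𝟙 (𝟙_ C)) ≫ η U.pull) := by
      simp only [Category.assoc]
      rw [Functor.Monoidal.η_ε_assoc, ← Functor.map_comp_assoc, h9]
      simp
    rw [h8, Functor.map_comp, h6, zero_comp]
  apply h1
  rw [← Functor.Monoidal.ε_η U.gen, ← Category.comp_id (ε U.gen), h7, comp_zero, zero_comp]

/-- Cycles over `U` with nilpotent realisation on the total space are smash-nilpotent. -/
lemma smashNil_of_homNil (hC : IsChowClass Chow) (hD : IsVectorLike E D)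
    (hQ : ∀ e : 𝟙_ C ⟶ 𝟙_ C, ∃ q : ℚ, e = q • 𝟙 (𝟙_ C)) (hn : HomEqualsNum Chow F)
    (ht : NilTrace Chow F) (W : WeightZero Chow F E) (hV : Voevodsky Chow) (U : Model C C')
    (hU : IsModel U Chow F F') {Q : U.M} (z : Q ⟶ 𝟙_ U.M) (h : U.HomNil F z) :
    U.Chow Q → SmashNil z := by
  induction h with
  | zero z hz =>
    intro hQ'
    obtain ⟨n, hX⟩ := hU.weights _ hQ'
    obtain ⟨P, e, z', hP, hz', he⟩ := factor_numTrivial W hC hD hQ hn ht n _ hX _ hz
    have h1 : SmashNil (U.flat z) := by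
      rw [he]
      exact (hV P z' hP hz').precomp e
    rw [of_flat U z]
    exact (h1.map U.pull).precomp _
  | step z _ ih =>
    intro hQ'
    exact SmashNil.step z (ih (hU.tensor _ hQ'))

theorem main (hC : IsChowClass Chow) (hD : IsVectorLike E D) (hs : HasSections D)
    (hQ : ∀ e : 𝟙_ C ⟶ 𝟙_ C, ∃ q : ℚ, e = q • 𝟙 (𝟙_ C)) (ht : NilTrace Chow F)
    (W : WeightZero Chow F E) (b : C ⥤ C') [b.Monoidal] [b.Additive] [b.Faithful]
    (hsp : IsSpreading b Chow Chow' F F') : Voevodsky Chow' ↔ Voevodsky Chow := by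
  constructor
  · intro hV Q z hQ' hz
    refine SmashNil.of_map b (hV _ (b.map z ≫ η b) (hsp.base hQ') fun v => ?_) z (𝟙 _)
      (by simp)
    obtain ⟨U, v₀, hU, c, hv⟩ := hsp.classes Q v
    have h2 : v₀ ≫ U.pull.map z = 0 := by
      obtain ⟨e₀, he⟩ := hU.connected (v₀ ≫ U.pull.map z ≫ η U.pull)
      have h3 := hz (U.point ≫ (U.adj.homEquiv _ _).symm v₀)
      have h4 : (U.adj.homEquiv _ _).symm v₀ ≫ z = U.flat (𝟙 (𝟙_ U.M)) ≫ e₀ := by
        have h5 : U.flat (v₀ ≫ U.pull.map z ≫ η U.pull) =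
            (U.adj.homEquiv _ _).symm v₀ ≫ z := by
          rw [Model.flat]
          simp only [Category.assoc]
          rw [Functor.Monoidal.η_ε, Category.comp_id, Adjunction.homEquiv_naturality_right_symm]
        rw [← h5, he, flat_base]
      rw [Category.assoc, h4, ← Category.assoc,
        show U.point ≫ U.flat (𝟙 (𝟙_ U.M)) = 𝟙 _ from hU.point, Category.id_comp] at h3
      rw [h3, Functor.map_zero, zero_comp, comp_zero] at he
      rw [← cancel_mono (η U.pull), Category.assoc, he, zero_comp]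
    rw [hv]
    simp only [Category.assoc]
    rw [← c.hom.naturality_assoc, Functor.comp_map, ← Functor.map_comp_assoc, h2]
    simp
  · intro hV Q z hQ' hz
    by_cases h1 : (𝟙 (𝟙_ C') : 𝟙_ C' ⟶ 𝟙_ C') = 0
    · exact smashNil_of_unit h1 z
    have hn : HomEqualsNum Chow F := homEqualsNum (E := E) hC hs hD hV
    obtain ⟨U, Q₀, z₀, hU, hQ₀, i, hi⟩ := hsp.cycles Q z hQ'
    have h2 := map_zero_of_numTrivial hQ hn W h1 U hU hQ₀ z₀ i z hi hz
    have h3 := smashNil_of_homNil hC hD hQ hn ht W hV U hU z₀ (hU.leray _ z₀ hQ₀ h2) hQ₀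
    have h4 := h3.map U.gen
    rw [← hi] at h4
    have h5 := h4.precomp i.inv
    rwa [Iso.inv_hom_id_assoc] at h5

end main

end Pool.Agent.U435.SP
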