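import Pool.Agent.U435.SP.Bundle

/-!
# Homological and numerical equivalence, and extensions of the base field
-/

set_option autoImplicit false
set_option linter.unusedSectionVars false
set_option linter.unusedSimpArgs false
set_option linter.checkUnivs false
set_option backward.isDefEq.respectTransparency false
set_option backward.defeqAttrib.useBackward true

open CategoryTheory Limits MonoidalCategory Pretriangulated Triangulated
open Functor.LaxMonoidal Functor.OplaxMonoidal

namespace Pool.Agent.U435.SP

open Pool.Agent.U735.CV Pool.Agent.Y116.MT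

universe v u v' u' w

/-- Numerically trivial cycles on the motives in `Chow` have zero realisation. -/
def NumIsHom {C : Type u} [Category.{v} C] [Preadditive C] [MonoidalCategory C]
    {D : Type u'} [Category.{v'} D] [Preadditive D] (Chow : ObjectProperty C) (F : C ⥤ D) : Prop :=
  ∀ (Q : C) (z : Q ⟶ 𝟙_ C), Chow Q → NumTrivial z → F.map z = 0

section

variable {C : Type u} [Category.{v} C] [Preadditive C] [HasZeroObject C] [HasShift C ℤ]
  [∀ n : ℤ, (shiftFunctor C n).Additive] [Pretriangulated C] [MonoidalCategory C]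
  {C' : Type u} [Category.{v} C'] [Preadditive C'] [MonoidalCategory C']
  {D : Type u'} [Category.{v'} D] [Preadditive D]
  {Chow : ObjectProperty C} {F : C ⥤ D}
  {Chow' : ObjectProperty C'} {F' : C' ⥤ D}

/-- Numerically trivial cycles over `k` stay numerically trivial over `K`. -/
lemma numTrivial_base (b : C ⥤ C') [b.Monoidal] [b.Additive]
    (hsp : IsSpreading b Chow Chow' F F') {Q : C} (z : Q ⟶ 𝟙_ C) (hz : NumTrivial z) :
    NumTrivial (b.map z ≫ η b) := by
  intro v
  obtain ⟨U, v₀, hU, c, hv⟩ := hsp.classes Q v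
  have h2 : v₀ ≫ U.pull.map z = 0 := by
    obtain ⟨e₀, he⟩ := hU.connected (v₀ ≫ U.pull.map z ≫ η U.pull)
    have h3 := hz (U.point ≫ (U.adj.homEquiv _ _).symm v₀)
    have h4 : (U.adj.homEquiv _ _).symm v₀ ≫ z = U.flat (𝟙 (𝟙_ U.M)) ≫ e₀ := by
      have h5 : U.flat (v₀ ≫ U.pull.map z ≫ η U.pull) =
          (U.adj.homEquiv _ _).symm v₀ ≫ z := by
        rw [Model.flat]
        simp only [Category.assoc]
        rw [Functor.Monoidal.η_ε, Category.comp_id, Adjunction.homEquiv_naturality_right_symm]
      rw [← h5, he, flat_base]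
    rw [Category.assoc, h4, ← Category.assoc,
      show U.point ≫ U.flat (𝟙 (𝟙_ U.M)) = 𝟙 _ from hU.point, Category.id_comp] at h3
    rw [h3, Functor.map_zero, zero_comp, comp_zero] at he
    rw [← cancel_mono (η U.pull), Category.assoc, he, zero_comp]
  rw [hv]
  simp only [Category.assoc]
  rw [← c.hom.naturality_assoc, Functor.comp_map, ← Functor.map_comp_assoc, h2]
  simp

end

theorem numIsHom_iff {E : Type w} [Field E] [CharZero E] {T : Coefficients.{v', u', w} E}
    {M : BaseMotives.{v, u} T} (N : ExtensionMotives M) (c : N.b ⋙ N.F ≅ M.F) :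
    NumIsHom N.Chow N.F ↔ NumIsHom M.Chow M.F := by
  constructor
  · intro h Q z hQ hz
    have h1 := h _ _ (N.spreading.base hQ) (numTrivial_base N.b N.spreading z hz)
    have h2 : N.F.map (N.b.map z) = 0 := by
      have h3 : N.F.map (N.b.map z) ≫ N.F.map (η N.b) = 0 := by
        rw [← Functor.map_comp]
        exact h1
      rw [← cancel_mono (N.F.map (η N.b)), h3, zero_comp]
    have h4 := c.hom.naturality z
    rw [Functor.comp_map, h2, zero_comp] at h4
    rw [← cancel_epi (c.hom.app Q), ← h4, comp_zero]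
  · intro h Q z hQ hz
    have h1 : (𝟙 (𝟙_ N.C) : 𝟙_ N.C ⟶ 𝟙_ N.C) ≠ 0 := by
      intro h1
      apply unit_ne M.F T.vectorLike
      apply N.b.map_injective
      rw [CategoryTheory.Functor.map_id, Functor.map_zero, ← cancel_epi (ε N.b),
        ← cancel_mono (η N.b), comp_zero, zero_comp, Category.comp_id, Functor.Monoidal.ε_η, h1]
    have hn : HomEqualsNum M.Chow M.F := by
      intro P z hP hz
      apply map_zero_of_dualCycle (Q := Pᘁ) M.F z
      refine h _ _ (M.isChowClass.dual hP) fun v => ?_
      rw [dualCycle_test, ← Category.assoc, ← Category.assoc, Category.assoc z]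
      have h1 := hz ((λ_ P).inv ≫ v ▷ P ≫ ε_ P Pᘁ)
      simpa using h1
    obtain ⟨U, Q₀, z₀, hU, hQ₀, i, hi⟩ := N.spreading.cycles Q z hQ
    have h2 := map_zero_of_numTrivial M.unit_end hn M.W h1 U hU hQ₀ z₀ i z hi hz
    have h3 : N.F.map (i.hom ≫ z) = 0 := by
      rw [hi, Functor.map_comp, h2, zero_comp]
    rw [Functor.map_comp] at h3
    rw [← cancel_epi (N.F.map i.hom), h3, comp_zero]

end Pool.Agent.U435.SP
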