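import Pool.Agent.U435.SP.MurDefs
import Pool.Agent.U435.SP.Num

/-!
# Murre's conjectures and extensions of the base field
-/

set_option autoImplicit false
set_option linter.unusedSectionVars false
set_option linter.unusedSimpArgs false
set_option linter.checkUnivs false
set_option backward.isDefEq.respectTransparency false
set_option backward.defeqAttrib.useBackward true

open CategoryTheory Limits MonoidalCategory Pretriangulated Triangulated
open Functor.LaxMonoidal Functor.OplaxMonoidal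

namespace Pool.Agent.U435.SP

open Pool.Agent.U735.CV Pool.Agent.Y116.MT

universe v u v' u' w

section nil

variable {C : Type u} [Category.{v} C] [Preadditive C] [MonoidalCategory C]

/-- The endomorphism of `X` obtained from a smash-nilpotent cycle is nilpotent. -/
lemma nil_of_smashNil [MonoidalPreadditive C] {A : C} {w : A ⟶ 𝟙_ C} (h : SmashNil w) (X : C) :
    ∀ s : X ⟶ X ⊗ A, IsNilpotent (End.of (s ≫ X ◁ w ≫ (ρ_ X).hom)) := by
  induction h with
  | zero A =>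
    intro s
    have h0 : s ≫ X ◁ (0 : A ⟶ 𝟙_ C) ≫ (ρ_ X).hom = 0 := by simp
    rw [h0]
    exact IsNilpotent.zero
  | step w _ ih =>
    intro s
    set a := s ≫ X ◁ w ≫ (ρ_ X).hom with ha
    have h1 : (s ≫ s ▷ _ ≫ (α_ _ _ _).hom) ≫ X ◁ sq w ≫ (ρ_ X).hom = a ≫ a := by
      have h2 : (α_ _ _ _).hom ≫ X ◁ sq w ≫ (ρ_ X).hom =
          (X ◁ w ≫ (ρ_ X).hom) ▷ _ ≫ X ◁ w ≫ (ρ_ X).hom := by
        rw [sq, MonoidalCategory.tensorHom_def]
        simp [unitors_equal]
      simp only [Category.assoc]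
      rw [h2, ← comp_whiskerRight_assoc, ← ha, ← whisker_exchange_assoc,
        rightUnitor_naturality]
      simp only [ha, Category.assoc]
    obtain ⟨n, hn⟩ := ih (s ≫ s ▷ _ ≫ (α_ _ _ _).hom)
    refine ⟨2 * n, ?_⟩
    rw [h1] at hn
    rw [pow_mul]
    have h3 : (End.of a) ^ 2 = End.of (a ≫ a) := by
      rw [pow_two]
      rfl
    rw [h3]
    exact hn

end nil

section base

variable {C : Type u} [Category.{v} C] [Preadditive C] [HasZeroObject C] [HasShift C ℤ]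
  [∀ n : ℤ, (shiftFunctor C n).Additive] [Pretriangulated C] [IsTriangulated C]
  [MonoidalCategory C] [SymmetricCategory C] [TensorTriangulated C] [MonoidalPreadditive C]
  [RightRigidCategory C] [Linear ℚ C]
  {D : Type u'} [Category.{v'} D] [Preadditive D] [HasZeroObject D] [HasShift D ℤ]
  [∀ n : ℤ, (shiftFunctor D n).Additive] [Pretriangulated D] [MonoidalCategory D]
  [SymmetricCategory D] [MonoidalPreadditive D] {E : Type w} [Field E] [CharZero E] [Linear E D]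
  [MonoidalLinear E D]
  {Chow : ObjectProperty C} {F : C ⥤ D} [F.Braided] [F.Additive] [F.CommShift ℤ]
  [F.IsTriangulated]

/-- The cycle of an endomorphism with zero realisation is numerically trivial. -/
lemma nil_endo (hC : IsChowClass Chow) (hD : IsVectorLike E D)
    (hQ : ∀ e : 𝟙_ C ⟶ 𝟙_ C, ∃ q : ℚ, e = q • 𝟙 (𝟙_ C)) (hV : Voevodsky Chow) {P : C}
    (hP : Chow P) (a : P ⟶ P) (ha : F.map a = 0) : IsNilpotent (End.of a) := by
  have h1 : F.map (Pᘁ ◁ a) = 0 := by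
    rw [← cancel_epi (μ F Pᘁ P), ← Functor.LaxMonoidal.μ_natural_right, ha]
    simp
  have h2 : SmashNil (Pᘁ ◁ a ≫ ε_ P Pᘁ) := by
    refine hV _ _ (hC.tensor (hC.dual hP) hP) fun v => ?_
    apply unit_end_zero (F := F) hQ hD
    rw [Functor.map_comp, Functor.map_comp, h1, zero_comp, comp_zero]
  have h3 := nil_of_smashNil h2 P ((λ_ P).inv ≫ η_ P Pᘁ ▷ P ≫ (α_ _ _ _).hom)
  have h4 : ((λ_ P).inv ≫ η_ P Pᘁ ▷ P ≫ (α_ _ _ _).hom) ≫ P ◁ (Pᘁ ◁ a ≫ ε_ P Pᘁ) ≫
      (ρ_ P).hom = a := by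
    simp only [Category.assoc, MonoidalCategory.whiskerLeft_comp]
    have h5 : (α_ P Pᘁ P).hom ≫ P ◁ Pᘁ ◁ a = (P ⊗ Pᘁ) ◁ a ≫ (α_ P Pᘁ P).hom := by
      simp
    rw [reassoc_of% h5, ← whisker_exchange_assoc, ExactPairing.evaluation_coevaluation_assoc]
    simp
  rwa [h4] at h3

/-- If endomorphisms with zero realisation are nilpotent then the realisation reflects
isomorphisms between Chow motives. -/
lemma reflectsIso (hC : IsChowClass Chow) (hD : IsVectorLike E D)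
    (hQ : ∀ e : 𝟙_ C ⟶ 𝟙_ C, ∃ q : ℚ, e = q • 𝟙 (𝟙_ C)) (ht : NilTrace Chow F)
    (hn : HomEqualsNum Chow F)
    (hN : ∀ (P : C) (a : P ⟶ P), Chow P → F.map a = 0 → IsNilpotent (End.of a)) :
    ReflectsIso Chow F := by
  intro P Q f hP hQ' hf
  obtain ⟨g, hg⟩ := regular_hom hC hD hQ hn ht hP hQ' f
  have h1 : F.map (f ≫ g) = 𝟙 _ := by
    rw [← cancel_mono (F.map f), ← Functor.map_comp, Category.assoc, hg, Category.id_comp]
  have h2 : F.map (g ≫ f) = 𝟙 _ := by
    rw [← cancel_epi (F.map f), ← Functor.map_comp, hg, Category.comp_id]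
  have key : ∀ {R : C} (hR : Chow R) (a : R ⟶ R), F.map a = 𝟙 _ → IsIso a := by
    intro R hR a ha
    have h3 : IsNilpotent (End.of (𝟙 R - a)) :=
      hN R _ hR (by
        rw [Functor.map_sub, ha, CategoryTheory.Functor.map_id, sub_self])
    have h4 : IsUnit (1 - End.of (𝟙 R - a)) := h3.isUnit_one_sub
    have h5 : (1 - End.of (𝟙 R - a) : End R) = End.of a := by
      change (𝟙 R - (𝟙 R - a) : R ⟶ R) = a
      abel
    rw [h5] at h4
    exact (isUnit_iff_isIso (C := C) _).1 h4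
  have h6 := key hP (f ≫ g) h1
  have h7 := key hQ' (g ≫ f) h2
  have h8 : IsSplitMono f := ⟨⟨⟨g ≫ inv (f ≫ g), by rw [← Category.assoc, IsIso.hom_inv_id]⟩⟩⟩
  have h9 : Epi f := by
    have : Epi (g ≫ f) := inferInstance
    exact epi_of_epi g f
  exact isIso_of_epi_of_isSplitMono f

variable {h : D ⥤ ModuleCat.{w} E} {V : Weights Chow F E}

lemma gr_isZero (G : IsGraded h V) (X : C) (m : ℤ) (hX : IsZero (h.obj ((F.obj X)⟦m⟧))) :
    IsZero ((V.gr m).obj (X⟦m⟧)) :=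
  G.zero m _ (hX.of_iso (h.mapIso ((F.commShiftIso m).app X)))

/-- Morphisms from degrees at most `n` to degrees at least `n + 1` are zero. -/
lemma zero_of_degrees (hC : IsChowClass Chow) (G : IsGraded h V) (hB : MurreB h F Chow) {P Q : C}
    (hP : Chow P) (hQ : Chow Q) {n : ℤ} (h1 : InLE h F P n) (h2 : InGE h F Q (n + 1))
    (f : P ⟶ Q) : f = 0 := by
  have h3 : Qᘁ ◁ f ≫ ε_ Q Qᘁ = 0 := by
    refine hB _ _ (hC.tensor (hC.dual hQ) hP) ?_
    have h4 := G.tensor (-(n + 1)) n (hC.dual hQ) hP (G.dual (n + 1) hQ h2) h1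
    have h5 : -(n + 1) + n = -1 := by ring
    rwa [h5] at h4
  have h4 : (λ_ P).inv ≫ η_ Q Qᘁ ▷ P ≫ (α_ _ _ _).hom ≫ Q ◁ (Qᘁ ◁ f ≫ ε_ Q Qᘁ) ≫
      (ρ_ Q).hom = f := by
    simp only [Category.assoc, MonoidalCategory.whiskerLeft_comp]
    have h5 : (α_ Q Qᘁ P).hom ≫ Q ◁ Qᘁ ◁ f = (Q ⊗ Qᘁ) ◁ f ≫ (α_ Q Qᘁ Q).hom := by
      simp
    rw [reassoc_of% h5, ← whisker_exchange_assoc, ExactPairing.evaluation_coevaluation_assoc]
    simp
  rw [← h4, h3]
  simp

/-- An object built from `P₀, P₁⟦-1⟧, …` embeds into a Chow motive on the lowest weights. -/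
lemma exists_embedding (hC : IsChowClass Chow) (n : ℕ) (Y : C) (hY : ChowComplex Chow n Y) :
    ∃ (P : C) (d : Y ⟶ P), Chow P ∧ ∀ m : ℤ, Mono ((V.gr m).map (d⟦m⟧')) := by
  cases n with
  | zero =>
    refine ⟨𝟙_ C, 0, hC.unit, fun m => ?_⟩
    have := V.homological m
    have hY0 : IsZero Y := hY
    have h1 : IsZero ((V.gr m).obj (Y⟦m⟧)) :=
      (V.gr m).map_isZero ((shiftFunctor C m).map_isZero hY0)
    exact ⟨fun _ _ _ => h1.eq_of_tgt _ _⟩
  | succ n =>
    obtain ⟨P, Y', e, h', i, hP, hY', hT⟩ := hY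
    refine ⟨P, e, hP, fun m => ?_⟩
    have := V.homological m
    exact hmono1 (V.gr m) hT m (gr_zero V n Y' hY' m (m - 1) (by omega))

/-- The structure of an object built from `P₀, P₁⟦-1⟧, …` whose realisation is in degrees at
most `t`. -/
lemma exists_factor (hC : IsChowClass Chow) (G : IsGraded h V) (hB : MurreB h F Chow)
    (hA : MurreA h F Chow) (hr : ReflectsSplitMono Chow F) (n : ℕ) (X : C)
    (hX : ChowComplex Chow (n + 1) X) (t : ℤ) (hXt : InLE h F X t) (z : X ⟶ 𝟙_ C) :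
    ∃ (P P' : C) (a : X ⟶ P) (f₀ : P ⟶ 𝟙_ C) (d : P ⟶ P'),
      Chow P ∧ Chow P' ∧ InLE h F P t ∧ z = a ≫ f₀ ∧ a ≫ d = 0 ∧
      (∀ x : P ⟶ P, (V.gr 0).map (x ≫ d) = 0 → (V.gr 0).map z = 0 →
        (V.gr 0).map (x ≫ f₀) = 0) := by
  obtain ⟨P, Y, e, k, i, hP, hY, hT⟩ := hX
  obtain ⟨P', d, hP', hd⟩ := exists_embedding (V := V) hC n Y hY
  obtain ⟨P₁, P₂, i₁, p₁, i₂, p₂, hP₁, hP₂, hL, hG, h11, h22, hsum⟩ := hA P hP t
  obtain ⟨z₀, hz₀⟩ := ye1' hT z (by
    have h1 := hom_unit_zero hC n Y hY 1 (by omega) (i ≫ z⟦(1 : ℤ)⟧')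
    exact h1)
  -- the part of `P` in degrees greater than `t` is a summand of `P'`
  have hφ : ∀ m : ℤ, Mono ((V.gr m).map ((i₂ ≫ k ≫ d)⟦m⟧')) := by
    intro m
    have := V.homological m
    by_cases hm : t < m
    · have h1 : Mono ((V.gr m).map (k⟦m⟧')) :=
        hmono2 (V.gr m) hT m (gr_isZero G X m (hXt m hm))
      have h2 := hd m
      have h3 : IsSplitMono i₂ := ⟨⟨⟨p₂, h22⟩⟩⟩
      rw [Functor.map_comp, Functor.map_comp, Functor.map_comp, Functor.map_comp]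
      have h4 : Mono ((V.gr m).map (i₂⟦m⟧')) := inferInstance
      exact mono_comp _ _
    · have h1 : IsZero ((V.gr m).obj (P₂⟦m⟧)) := gr_isZero G P₂ m (hG m (by omega))
      exact ⟨fun _ _ _ => h1.eq_of_tgt _ _⟩
  have h1 : IsSplitMono (i₂ ≫ k ≫ d) := hr _ _ _ hP₂ hP' (V.mono _ hP₂ hP' hφ)
  have h2 : e ≫ p₂ = 0 := by
    have h3 : i₁ ≫ k ≫ d ≫ retraction (i₂ ≫ k ≫ d) = 0 :=
      zero_of_degrees hC G hB hP₁ hP₂ hL hG _
    have h4 : e ≫ (p₁ ≫ i₁ + p₂ ≫ i₂) ≫ k ≫ d ≫ retraction (i₂ ≫ k ≫ d) = 0 := by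
      rw [hsum, Category.id_comp, ← Category.assoc, comp12 hT, zero_comp]
    have h5 : i₂ ≫ k ≫ d ≫ retraction (i₂ ≫ k ≫ d) = 𝟙 _ := by
      simpa only [Category.assoc] using IsSplitMono.id (i₂ ≫ k ≫ d)
    simp only [Preadditive.add_comp, Category.assoc, Preadditive.comp_add] at h4
    rw [h3, h5] at h4
    simpa using h4
  have h3 : e ≫ p₁ ≫ i₁ = e := by
    have h4 : e ≫ (p₁ ≫ i₁ + p₂ ≫ i₂) = e := by rw [hsum, Category.comp_id]
    rw [Preadditive.comp_add, reassoc_of% h2, zero_comp, add_zero] at h4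
    exact h4
  refine ⟨P₁, P', e ≫ p₁, i₁ ≫ z₀, i₁ ≫ k ≫ d, hP₁, hP', hL, ?_, ?_, ?_⟩
  · rw [Category.assoc, reassoc_of% h3]
    exact hz₀
  · rw [Category.assoc, reassoc_of% h3, ← Category.assoc, comp12 hT, zero_comp]
  · intro x hx hz
    have := V.homological 0
    have h4 : Mono ((V.gr 0).map d) := by
      have h5 := hd 0
      have h6 : (V.gr 0).map d = (V.gr 0).map ((shiftFunctorZero C ℤ).inv.app Y) ≫
          (V.gr 0).map (d⟦(0 : ℤ)⟧') ≫ (V.gr 0).map ((shiftFunctorZero C ℤ).hom.app P') := by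
        rw [← Functor.map_comp, ← Functor.map_comp, NatTrans.naturality]
        simp
      rw [h6]
      exact mono_comp _ _
    have h5 : (V.gr 0).map (x ≫ i₁) ≫ (V.gr 0).map k = 0 := by
      rw [← cancel_mono ((V.gr 0).map d), zero_comp, ← Functor.map_comp, ← Functor.map_comp]
      simpa using hx
    have h6 := (V.gr 0).map_distinguished_exact _ hT
    rw [ShortComplex.moduleCat_exact_iff] at h6
    have h7 : (V.gr 0).map (x ≫ i₁) ≫ (V.gr 0).map z₀ = 0 := by
      ext v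
      obtain ⟨y, hy⟩ := h6 ((V.gr 0).map (x ≫ i₁) v) (by
        have h8 := congrArg (fun t => t v) (congrArg ModuleCat.Hom.hom h5)
        simpa using h8)
      have h8 : (V.gr 0).map e ≫ (V.gr 0).map z₀ = 0 := by
        rw [← Functor.map_comp, ← hz₀, hz]
      have h9 := congrArg (fun t => t y) (congrArg ModuleCat.Hom.hom h8)
      have h10 : (V.gr 0).map z₀ ((V.gr 0).map e y) = 0 := by simpa using h9
      have h11 : (V.gr 0).map e y = (V.gr 0).map (x ≫ i₁) v := hy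
      rw [h11] at h10
      simpa using h10
    rw [← Functor.map_comp] at h7
    simpa using h7

/-- Murre (B) over `k`: there are no nonzero morphisms to the unit from objects built from
`P₀, P₁⟦-1⟧, …` whose realisation is in negative degrees. -/
lemma eq_zero_B (hC : IsChowClass Chow) (G : IsGraded h V) (hB : MurreB h F Chow)
    (hA : MurreA h F Chow) (hr : ReflectsSplitMono Chow F) (n : ℕ) (X : C)
    (hX : ChowComplex Chow n X) (hXt : InLE h F X (-1)) (z : X ⟶ 𝟙_ C) : z = 0 := by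
  cases n with
  | zero =>
    have hX0 : IsZero X := hX
    exact hX0.eq_of_src _ _
  | succ n =>
    obtain ⟨P, P', a, f₀, d, hP, hP', hL, hz, -, -⟩ :=
      exists_factor hC G hB hA hr n X hX (-1) hXt z
    rw [hz, hB P f₀ hP hL, comp_zero]

lemma murreB_of_murreD (hC : IsChowClass Chow) (G : IsGraded h V) (hd : MurreD h F Chow) :
    MurreB h F Chow := by
  intro Q z hQ hL
  have hL' : InLE h F Q 0 := fun m hm => hL m (by omega)
  refine hd Q z hQ hL' (G.unit z hQ hL' ?_)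
  have h1 : IsZero ((V.gr 0).obj (Q⟦(0 : ℤ)⟧)) := gr_isZero G Q 0 (hL 0 (by omega))
  have h2 : IsZero ((V.gr 0).obj Q) :=
    h1.of_iso ((V.gr 0).mapIso ((shiftFunctorZero C ℤ).symm.app Q))
  exact h2.eq_of_src _ _

/-- Murre (D), in two variables. -/
lemma zero_of_degrees' (hC : IsChowClass Chow) (G : IsGraded h V) (hd : MurreD h F Chow) {P Q : C}
    (hP : Chow P) (hQ : Chow Q) {n : ℤ} (h1 : InLE h F P n) (h2 : InGE h F Q n)
    (f : P ⟶ Q) (hf : F.map f = 0) : f = 0 := by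
  have h3 : Qᘁ ◁ f ≫ ε_ Q Qᘁ = 0 := by
    refine hd _ _ (hC.tensor (hC.dual hQ) hP) ?_ ?_
    · have h4 := G.tensor (-n) n (hC.dual hQ) hP (G.dual n hQ h2) h1
      have h5 : -n + n = 0 := by ring
      rwa [h5] at h4
    · have h6 : F.map (Qᘁ ◁ f) = 0 := by
        rw [← cancel_epi (μ F Qᘁ P), ← Functor.LaxMonoidal.μ_natural_right, hf]
        simp
      rw [Functor.map_comp, h6, zero_comp]
  have h4 : (λ_ P).inv ≫ η_ Q Qᘁ ▷ P ≫ (α_ _ _ _).hom ≫ Q ◁ (Qᘁ ◁ f ≫ ε_ Q Qᘁ) ≫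
      (ρ_ Q).hom = f := by
    simp only [Category.assoc, MonoidalCategory.whiskerLeft_comp]
    have h5 : (α_ Q Qᘁ P).hom ≫ Q ◁ Qᘁ ◁ f = (Q ⊗ Qᘁ) ◁ f ≫ (α_ Q Qᘁ Q).hom := by
      simp
    rw [reassoc_of% h5, ← whisker_exchange_assoc, ExactPairing.evaluation_coevaluation_assoc]
    simp
  rw [← h4, h3]
  simp

/-- Murre (A) and (D): endomorphisms of Chow motives with zero realisation are nilpotent. -/
lemma nil_of_murreD (hC : IsChowClass Chow) (G : IsGraded h V) (hA : MurreA h F Chow)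
    (hd : MurreD h F Chow) {P : C} (hP : Chow P) (a : P ⟶ P) (ha : F.map a = 0) :
    IsNilpotent (End.of a) := by
  obtain ⟨lo, hi, hlo, hhi⟩ := G.bounded P hP
  have key : ∀ (k : ℕ) (R : C) (x : R ⟶ P), Chow R → InLE h F R (lo - 1 + k) →
      x ≫ (show P ⟶ P from (End.of a) ^ k) = 0 := by
    intro k
    induction k with
    | zero =>
      intro R x hR hL
      have h1 : x = 0 := zero_of_degrees hC G (murreB_of_murreD hC G hd) hR hP (n := lo - 1)
        (by simpa using hL) (by simpa using hlo) x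
      rw [h1, zero_comp]
    | succ k ih =>
      intro R x hR hL
      obtain ⟨P₁, P₂, i₁, p₁, i₂, p₂, hP₁, hP₂, hL₁, hG, h11, h22, hsum⟩ := hA P hP (lo - 1 + k)
      have h1 : x ≫ a ≫ p₂ = 0 := by
        refine zero_of_degrees' hC G hd hR hP₂ (n := lo - 1 + (k + 1 : ℕ)) hL ?_ _ ?_
        · have h2 : lo - 1 + ((k + 1 : ℕ) : ℤ) = lo - 1 + k + 1 := by push_cast; ring
          rw [h2]
          exact hG
        · rw [Functor.map_comp, Functor.map_comp, ha, zero_comp, comp_zero]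
      have h3 : x ≫ a = (x ≫ a ≫ p₁) ≫ i₁ := by
        have h4 : (x ≫ a) ≫ (p₁ ≫ i₁ + p₂ ≫ i₂) = x ≫ a := by rw [hsum, Category.comp_id]
        rw [Preadditive.comp_add] at h4
        rw [← h4]
        simp only [Category.assoc]
        rw [show x ≫ a ≫ p₂ ≫ i₂ = (x ≫ a ≫ p₂) ≫ i₂ by simp, h1, zero_comp, add_zero]
      have h5 : (show P ⟶ P from (End.of a) ^ (k + 1)) =
          a ≫ (show P ⟶ P from (End.of a) ^ k) := by
        rw [pow_succ]
        rfl
      rw [h5, ← Category.assoc, h3, Category.assoc, ih P₁ i₁ hP₁ hL₁, comp_zero]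
  refine ⟨(hi - lo + 1).toNat, ?_⟩
  have h1 := key (hi - lo + 1).toNat P (𝟙 P) hP (fun m hm => hhi m (by omega))
  rw [Category.id_comp] at h1
  exact h1

/-- Murre (D) over `k`: morphisms with zero realisation to the unit from objects built from
`P₀, P₁⟦-1⟧, …` whose realisation is in degrees at most zero are zero. -/
lemma eq_zero_D (hC : IsChowClass Chow) (hD : IsVectorLike E D)
    (hQ : ∀ e : 𝟙_ C ⟶ 𝟙_ C, ∃ q : ℚ, e = q • 𝟙 (𝟙_ C)) (ht : NilTrace Chow F)
    (hn : HomEqualsNum Chow F) (G : IsGraded h V) (hd : MurreD h F Chow)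
    (hA : MurreA h F Chow) (hr : ReflectsSplitMono Chow F) (n : ℕ) (X : C)
    (hX : ChowComplex Chow n X) (hXt : InLE h F X 0) (z : X ⟶ 𝟙_ C) (hz0 : F.map z = 0) :
    z = 0 := by
  cases n with
  | zero =>
    have hX0 : IsZero X := hX
    exact hX0.eq_of_src _ _
  | succ n =>
    obtain ⟨P, P', a, f₀, d, hP, hP', hL, hz, had, hx⟩ :=
      exists_factor hC G (murreB_of_murreD hC G hd) hA hr n X hX 0 hXt z
    obtain ⟨g, hg⟩ := regular_hom hC hD hQ hn ht hP hP' d
    have h1 : (𝟙 P - d ≫ g) ≫ f₀ = 0 := by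
      refine hd P _ hP hL (G.unit _ hP hL (hx _ (G.map_zero _ 0 ?_) (G.map_zero _ 0 hz0)))
      rw [Preadditive.sub_comp, Category.id_comp, Category.assoc, Functor.map_sub, hg, sub_self]
    rw [Preadditive.sub_comp, Category.id_comp, sub_eq_zero] at h1
    rw [hz, h1, Category.assoc, reassoc_of% had, zero_comp]

end base

section ext

variable {E : Type w} [Field E] [CharZero E] {T : Coefficients.{v', u', w} E}
  {M : BaseMotives.{v, u} T} (N : ExtensionMotives M) (G : Degrees N)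

lemma inLE_iso {C : Type u} [Category.{v} C] {D : Type u'} [Category.{v'} D] [HasShift D ℤ]
    {h : D ⥤ ModuleCat.{w} E} {F : C ⥤ D} {X Y : C} (i : X ≅ Y) {n : ℤ} (hX : InLE h F X n) :
    InLE h F Y n := fun m hm =>
  (hX m hm).of_iso (h.mapIso ((shiftFunctor D m).mapIso (F.mapIso i.symm)))

lemma inLE_base {Q : M.C} {n : ℤ} (hQ : InLE G.h M.F Q n) :
    InLE G.h N.F (N.b.obj Q) n := fun m hm =>
  (hQ m hm).of_iso (G.h.mapIso ((shiftFunctor T.D m).mapIso (G.comparison.app Q)))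

lemma eq_zero_of_base {Q : M.C} (z : Q ⟶ 𝟙_ M.C) (hz : N.b.map z ≫ η N.b = 0) : z = 0 := by
  apply N.b.map_injective
  rw [← cancel_mono (η N.b), hz, Functor.map_zero, zero_comp]

lemma murreD_down (hd : MurreD G.h N.F N.Chow) : MurreD G.h M.F M.Chow := by
  intro Q z hQ hL hz
  refine eq_zero_of_base N z (hd _ _ (N.spreading.base hQ) (inLE_base N G hL) ?_)
  have h1 := G.comparison.hom.naturality z
  rw [hz, comp_zero] at h1
  have h2 : N.F.map (N.b.map z) = 0 := by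
    rw [← cancel_mono (G.comparison.hom.app _), zero_comp]
    exact h1
  rw [Functor.map_comp, h2, zero_comp]

lemma murreB_down (hd : MurreB G.h N.F N.Chow) : MurreB G.h M.F M.Chow := by
  intro Q z hQ hL
  exact eq_zero_of_base N z (hd _ _ (N.spreading.base hQ) (inLE_base N G hL))

lemma splitMono_of_voevodsky (hV : Voevodsky M.Chow) : ReflectsSplitMono M.Chow M.F :=
  split_of_iso (reflectsIso (E := E) M.isChowClass T.vectorLike M.unit_end M.nilTrace
    (homEqualsNum (E := E) M.isChowClass T.sections T.vectorLike hV)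
    (fun P a hP ha => nil_endo (F := M.F) M.isChowClass T.vectorLike M.unit_end hV hP a ha))
    (homEqualsNum (E := E) M.isChowClass T.sections T.vectorLike hV)

lemma splitMono_of_murreD (hA : MurreA G.h M.F M.Chow) (hn : HomEqualsNum M.Chow M.F)
    (hd : MurreD G.h M.F M.Chow) : ReflectsSplitMono M.Chow M.F :=
  split_of_iso (reflectsIso (E := E) M.isChowClass T.vectorLike M.unit_end M.nilTrace hn
    (fun _ a hP ha => nil_of_murreD M.isChowClass G.graded hA hd hP a ha)) hn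

/-- A cycle over `K` is zero if it comes from a cycle over `U` which is zero as a cycle over `k`. -/
lemma eq_zero_of_flat (U : Model M.C N.C) {Q : N.C} (z : Q ⟶ 𝟙_ N.C) {Q₀ : U.M}
    (z₀ : Q₀ ⟶ 𝟙_ U.M) (i : U.gen.obj Q₀ ≅ Q) (hi : i.hom ≫ z = U.gen.map z₀ ≫ η U.gen)
    (h0 : U.flat z₀ = 0) : z = 0 := by
  have h1 : z₀ = 0 := by
    rw [of_flat U z₀, h0, Functor.map_zero, zero_comp, comp_zero]
  rw [h1, Functor.map_zero, zero_comp] at hi
  rw [← cancel_epi i.hom, hi, comp_zero]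

theorem murreB_up (hA : MurreA G.h M.F M.Chow) (hV : Voevodsky M.Chow)
    (hB : MurreB G.h M.F M.Chow) : MurreB G.h N.F N.Chow := by
  intro Q z hQ hL
  obtain ⟨U, Q₀, z₀, hw, hdeg, hQ₀, i, hi⟩ := G.spreads Q z hQ
  obtain ⟨n, hn⟩ := hw Q₀ hQ₀
  refine eq_zero_of_flat N U z z₀ i hi ?_
  exact eq_zero_B M.isChowClass G.graded hB hA (splitMono_of_voevodsky hV) n _ hn
    (hdeg.le Q₀ (-1) hQ₀ (inLE_iso i.symm hL)) _

theorem murreD_up (hA : MurreA G.h M.F M.Chow) (hn' : HomEqualsNum M.Chow M.F)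
    (hd : MurreD G.h M.F M.Chow) : MurreD G.h N.F N.Chow := by
  intro Q z hQ hL hz
  obtain ⟨U, Q₀, z₀, hw, hdeg, hQ₀, i, hi⟩ := G.spreads Q z hQ
  obtain ⟨n, hn⟩ := hw Q₀ hQ₀
  have hL' := inLE_iso i.symm hL
  have hz' : N.F.map (U.gen.map z₀) = 0 := by
    have h1 : N.F.map (i.hom ≫ z) = 0 := by rw [Functor.map_comp, hz, comp_zero]
    rw [hi, Functor.map_comp] at h1
    rw [← cancel_mono (N.F.map (η U.gen)), h1, zero_comp]
  refine eq_zero_of_flat N U z z₀ i hi ?_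
  exact eq_zero_D M.isChowClass T.vectorLike M.unit_end M.nilTrace hn' G.graded hd hA
    (splitMono_of_murreD N G hA hn' hd) n _ hn (hdeg.le Q₀ 0 hQ₀ hL') _
    (hdeg.edge Q₀ z₀ hQ₀ hL' hz')

/-- Numerically trivial cycles over `k` have zero realisation: the same for classes. -/
lemma homEqualsNum_of_numIsHom (h : NumIsHom M.Chow M.F) : HomEqualsNum M.Chow M.F := by
  intro P z hP hz
  apply map_zero_of_dualCycle (Q := Pᘁ) M.F z
  refine h _ _ (M.isChowClass.dual hP) fun v => ?_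
  rw [dualCycle_test, ← Category.assoc, ← Category.assoc, Category.assoc z]
  have h1 := hz ((λ_ P).inv ≫ v ▷ P ≫ ε_ P Pᘁ)
  simpa using h1

/-- Murre's conjectures (D) and (B) over `K` and over `k`. -/
theorem murre_iff (hA : MurreA G.h M.F M.Chow) :
    ((NumIsHom N.Chow N.F ∧ MurreD G.h N.F N.Chow) ↔
      (NumIsHom M.Chow M.F ∧ MurreD G.h M.F M.Chow)) ∧
    ((Voevodsky N.Chow ∧ MurreB G.h N.F N.Chow) ↔
      (Voevodsky M.Chow ∧ MurreB G.h M.F M.Chow)) := by
  rw [voevodsky_iff N, numIsHom_iff N G.comparison]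
  exact ⟨⟨fun h => ⟨h.1, murreD_down N G h.2⟩,
      fun h => ⟨h.1, murreD_up N G hA (homEqualsNum_of_numIsHom h.1) h.2⟩⟩,
    ⟨fun h => ⟨h.1, murreB_down N G h.2⟩, fun h => ⟨h.1, murreB_up N G hA h.1 h.2⟩⟩⟩

end ext

end Pool.Agent.U435.SP
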