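import Pool.Agent.U435.SP.Mur

/-!
# Murre's conjectures (A), (B), (D) together with Voevodsky's conjecture
-/

set_option autoImplicit false
set_option linter.unusedSectionVars false
set_option linter.unusedSimpArgs false
set_option linter.checkUnivs false
set_option backward.isDefEq.respectTransparency false
set_option backward.defeqAttrib.useBackward true

open CategoryTheory Limits MonoidalCategory Pretriangulated Triangulated
open Functor.LaxMonoidal Functor.OplaxMonoidal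

namespace Pool.Agent.U435.SP

open Pool.Agent.U735.CV Pool.Agent.Y116.MT

universe v u v' u' w

section defs

variable {C : Type u} [Category.{v} C] [Preadditive C]
  {D : Type u'} [Category.{v'} D] [HasShift D ℤ] {E : Type w} [Field E]

/-- The Künneth standard conjecture for the motives in `Chow`: for each `n`, the projector of the
cohomology of `P` onto the part in degrees at most `n` is the realisation of an endomorphism. -/
def HasProjectors (h : D ⥤ ModuleCat.{w} E) (F : C ⥤ D) (Chow : ObjectProperty C) : Prop :=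
  ∀ (P : C) (n : ℤ), Chow P → ∃ e : P ⟶ P, F.map e ≫ F.map e = F.map e ∧
    (∀ m : ℤ, n < m → h.map ((F.map e)⟦m⟧') = 0) ∧
    (∀ m : ℤ, m ≤ n → h.map ((F.map (𝟙 P - e))⟦m⟧') = 0)

/-- Rational and numerical equivalence agree: numerically trivial cycles are zero. -/
def RatIsNum [MonoidalCategory C] (Chow : ObjectProperty C) : Prop :=
  ∀ (Q : C) (z : Q ⟶ 𝟙_ C), Chow Q → NumTrivial z → z = 0

/-- A decomposition of `Q` into a part `P₁` in degrees at most `n` and a part `P₂` in degrees at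
least `n + 1` (sums of the terms of a Chow-Künneth decomposition). -/
structure Cut (h : D ⥤ ModuleCat.{w} E) (F : C ⥤ D) (Chow : ObjectProperty C) (Q : C)
    (n : ℤ) where
  (P₁ P₂ : C)
  (i₁ : P₁ ⟶ Q)
  (p₁ : Q ⟶ P₁)
  (i₂ : P₂ ⟶ Q)
  (p₂ : Q ⟶ P₂)
  chow₁ : Chow P₁
  chow₂ : Chow P₂
  le : InLE h F P₁ n
  ge : InGE h F P₂ (n + 1)
  split₁ : i₁ ≫ p₁ = 𝟙 P₁
  split₂ : i₂ ≫ p₂ = 𝟙 P₂
  sum : p₁ ≫ i₁ + p₂ ≫ i₂ = 𝟙 Q

/-- Murre's conjecture (C): the step `F^(n+1)` of the filtration, the cycles with zero restriction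
to the part in degrees at most `n`, is independent of the decomposition. -/
def MurreC [MonoidalCategory C] (h : D ⥤ ModuleCat.{w} E) (F : C ⥤ D)
    (Chow : ObjectProperty C) : Prop :=
  ∀ (Q : C) (n : ℤ) (c c' : Cut h F Chow Q n) (z : Q ⟶ 𝟙_ C), Chow Q →
    c.i₁ ≫ z = 0 → c'.i₁ ≫ z = 0

end defs

section indep

variable {C : Type u} [Category.{v} C] [Preadditive C] [MonoidalCategory C]
  [MonoidalPreadditive C] [RightRigidCategory C]
  {D : Type u'} [Category.{v'} D] [HasShift D ℤ] {E : Type w} [Field E]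
  {h : D ⥤ ModuleCat.{w} E} {F : C ⥤ D} {Chow : ObjectProperty C}

/-- Murre (B) implies Murre (C). -/
lemma murreC_of_murreB (hT : ∀ {P Q : C} (n : ℤ), Chow P → Chow Q → InLE h F P n →
      InGE h F Q (n + 1) → Chow (Qᘁ ⊗ P) ∧ InLE h F (Qᘁ ⊗ P) (-1))
    (hB : MurreB h F Chow) : MurreC h F Chow := by
  intro Q n c c' z hQ hz
  have hf : c'.i₁ ≫ c.p₂ = 0 := by
    set f := c'.i₁ ≫ c.p₂
    have h3 : c.P₂ᘁ ◁ f ≫ ε_ c.P₂ c.P₂ᘁ = 0 := by
      obtain ⟨h1, h2⟩ := hT n c'.chow₁ c.chow₂ c'.le c.ge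
      exact hB _ _ h1 h2
    have h4 : (λ_ c'.P₁).inv ≫ η_ c.P₂ c.P₂ᘁ ▷ c'.P₁ ≫ (α_ _ _ _).hom ≫
        c.P₂ ◁ (c.P₂ᘁ ◁ f ≫ ε_ c.P₂ c.P₂ᘁ) ≫ (ρ_ c.P₂).hom = f := by
      simp only [Category.assoc, MonoidalCategory.whiskerLeft_comp]
      have h5 : (α_ c.P₂ c.P₂ᘁ c'.P₁).hom ≫ c.P₂ ◁ c.P₂ᘁ ◁ f =
          (c.P₂ ⊗ c.P₂ᘁ) ◁ f ≫ (α_ c.P₂ c.P₂ᘁ c.P₂).hom := by
        simp
      rw [reassoc_of% h5, ← whisker_exchange_assoc,
        ExactPairing.evaluation_coevaluation_assoc]
      simp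
    rw [← h4, h3]
    simp
  have h1 : c'.i₁ ≫ z = (c'.i₁ ≫ (c.p₁ ≫ c.i₁ + c.p₂ ≫ c.i₂)) ≫ z := by
    rw [c.sum, Category.comp_id]
  rw [h1, Preadditive.comp_add, reassoc_of% hf, zero_comp, add_zero]
  simp [hz]

end indep

section nil

variable {C : Type u} [Category.{v} C] [Preadditive C] [MonoidalCategory C]
  [MonoidalPreadditive C] [RightRigidCategory C]
  {D : Type u'} [Category.{v'} D] [Preadditive D] [MonoidalCategory D] [MonoidalPreadditive D]
  {F : C ⥤ D} [F.Monoidal] [F.Additive] {Chow : ObjectProperty C}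

/-- Voevodsky's conjecture: endomorphisms of Chow motives with zero realisation are nilpotent. -/
lemma nil_endo' (hE : ∀ P : C, Chow P → Chow (Pᘁ ⊗ P))
    (hu : ∀ e : 𝟙_ C ⟶ 𝟙_ C, F.map e = 0 → e = 0) (hV : Voevodsky Chow) {P : C}
    (hP : Chow P) (a : P ⟶ P) (ha : F.map a = 0) : IsNilpotent (End.of a) := by
  have h1 : F.map (Pᘁ ◁ a) = 0 := by
    rw [← cancel_epi (μ F Pᘁ P), ← Functor.LaxMonoidal.μ_natural_right, ha]
    simp
  have h2 : SmashNil (Pᘁ ◁ a ≫ ε_ P Pᘁ) := by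
    refine hV _ _ (hE P hP) fun v => ?_
    apply hu
    rw [Functor.map_comp, Functor.map_comp, h1, zero_comp, comp_zero]
  have h3 := nil_of_smashNil h2 P ((λ_ P).inv ≫ η_ P Pᘁ ▷ P ≫ (α_ _ _ _).hom)
  have h4 : ((λ_ P).inv ≫ η_ P Pᘁ ▷ P ≫ (α_ _ _ _).hom) ≫ P ◁ (Pᘁ ◁ a ≫ ε_ P Pᘁ) ≫
      (ρ_ P).hom = a := by
    simp only [Category.assoc, MonoidalCategory.whiskerLeft_comp]
    have h5 : (α_ P Pᘁ P).hom ≫ P ◁ Pᘁ ◁ a = (P ⊗ Pᘁ) ◁ a ≫ (α_ P Pᘁ P).hom := by
      simp
    rw [reassoc_of% h5, ← whisker_exchange_assoc, ExactPairing.evaluation_coevaluation_assoc]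
    simp
  rwa [h4] at h3

end nil

section lift

variable {C : Type u} [Category.{v} C] [Preadditive C] [IsIdempotentComplete C]
  {D : Type u'} [Category.{v'} D] [Preadditive D] [HasShift D ℤ] {E : Type w} [Field E]
  {h : D ⥤ ModuleCat.{w} E} {F : C ⥤ D} [F.Additive] {Chow : ObjectProperty C}

lemma isZero_of_split {P P₁ : C} (m : ℤ) (i : P₁ ⟶ P) (p : P ⟶ P₁) (hip : i ≫ p = 𝟙 P₁)
    (h0 : h.map ((F.map (p ≫ i))⟦m⟧') = 0) : IsZero (h.obj ((F.obj P₁)⟦m⟧)) := by
  rw [IsZero.iff_id_eq_zero]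
  have h1 : 𝟙 (h.obj ((F.obj P₁)⟦m⟧)) = h.map ((F.map i)⟦m⟧') ≫
      h.map ((F.map (p ≫ i))⟦m⟧') ≫ h.map ((F.map p)⟦m⟧') := by
    rw [← Functor.map_comp, ← Functor.map_comp, ← Functor.map_comp, ← Functor.map_comp,
      ← Functor.map_comp, ← Functor.map_comp, Category.assoc, hip, Category.comp_id, hip]
    simp
  rw [h1, h0, zero_comp, comp_zero]

/-- Künneth projectors lift to Chow-Künneth decompositions. -/
lemma murreA_of_projectors (hs : ∀ {P Q : C} (i : P ⟶ Q) (r : Q ⟶ P), i ≫ r = 𝟙 P →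
      Chow Q → Chow P)
    (hN : ∀ (P : C) (a : P ⟶ P), Chow P → F.map a = 0 → IsNilpotent (End.of a))
    (hp : HasProjectors h F Chow) : MurreA h F Chow := by
  intro P hP n
  obtain ⟨e, he, h1, h2⟩ := hp P n hP
  let f : End P →+* End (F.obj P) :=
    { toFun := fun a => End.of (F.map (show P ⟶ P from a))
      map_one' := F.map_id _
      map_mul' := fun _ _ => F.map_comp _ _
      map_zero' := F.map_zero _ _
      map_add' := fun _ _ => F.map_add }
  obtain ⟨e', he', hf⟩ := exists_isIdempotentElem_eq_of_ker_isNilpotent f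
    (fun a ha => hN P a hP ha) (f (End.of e)) ⟨End.of e, rfl⟩ he
  let e₁ : P ⟶ P := e'
  have he₁ : e₁ ≫ e₁ = e₁ := he'
  have hf₁ : F.map e₁ = F.map e := hf
  obtain ⟨P₁, i₁, p₁, h11, h12⟩ := IsIdempotentComplete.idempotents_split P e₁ he₁
  obtain ⟨P₂, i₂, p₂, h21, h22⟩ := IsIdempotentComplete.idempotents_split P (𝟙 P - e₁) (by
    simp [Preadditive.sub_comp, Preadditive.comp_sub, he₁])
  refine ⟨P₁, P₂, i₁, p₁, i₂, p₂, hs i₁ p₁ h11 hP, hs i₂ p₂ h21 hP, ?_, ?_, h11, h21, ?_⟩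
  · intro m hm
    refine isZero_of_split m i₁ p₁ h11 ?_
    rw [h12, hf₁]
    exact h1 m hm
  · intro m hm
    refine isZero_of_split m i₂ p₂ h21 ?_
    rw [h22, Functor.map_sub, hf₁, ← Functor.map_sub]
    exact h2 m (by omega)
  · rw [h12, h22]
    abel

end lift

section ext

variable {E : Type w} [Field E] [CharZero E] {T : Coefficients.{v', u', w} E}
  {M : BaseMotives.{v, u} T}

/-- Further known facts on the Chow motives over `k` and over `K`: duals, images of projectors,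
and the theorem of Smirnov and Jannsen that homological = numerical equivalence implies the
Künneth standard conjecture. -/
structure KunnethData (N : ExtensionMotives M) (G : Degrees N) where
  [monoidalPreadditive : MonoidalPreadditive N.C]
  [rigid : RightRigidCategory N.C]
  [additive : N.F.Additive]
  [split : IsIdempotentComplete N.C]
  [splitBase : IsIdempotentComplete M.C]
  summand {P Q : N.C} (i : P ⟶ Q) (r : Q ⟶ P) : i ≫ r = 𝟙 P → N.Chow Q → N.Chow P
  hom {P Q : N.C} : N.Chow P → N.Chow Q → N.Chow (Qᘁ ⊗ P)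
  hom_le {P Q : N.C} (n : ℤ) : N.Chow P → N.Chow Q → InLE G.h N.F P n →
    InGE G.h N.F Q (n + 1) → InLE G.h N.F (Qᘁ ⊗ P) (-1)
  unit_end (e : 𝟙_ N.C ⟶ 𝟙_ N.C) : N.F.map e = 0 → e = 0
  projectors : NumIsHom N.Chow N.F → HasProjectors G.h N.F N.Chow
  projectorsBase : NumIsHom M.Chow M.F → HasProjectors G.h M.F M.Chow

variable {N : ExtensionMotives M} {G : Degrees N} (K : KunnethData N G)

omit [CharZero E] in
lemma numIsHom_of_voevodsky {C : Type u} [Category.{v} C] [Preadditive C] [MonoidalCategory C]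
    {Chow : ObjectProperty C} (F : C ⥤ T.D) [F.Monoidal] [F.Additive]
    (hV : Voevodsky Chow) : NumIsHom Chow F := by
  intro Q z hQ hz
  have h1 := eq_zero_of_smashNil T.sections T.vectorLike.unit_ne ((hV Q z hQ hz).map F)
  rwa [← cancel_mono (η F), zero_comp]

include K

lemma murreA_ext (hV : Voevodsky N.Chow) : MurreA G.h N.F N.Chow := by
  letI := K.monoidalPreadditive
  letI := K.rigid
  letI := K.additive
  letI := K.split
  exact murreA_of_projectors K.summand
    (fun P a hP ha => nil_endo' (F := N.F) (fun _ hP => K.hom hP hP) K.unit_end hV hP a ha)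
    (K.projectors (numIsHom_of_voevodsky N.F hV))

lemma murreA_base (hV : Voevodsky M.Chow) : MurreA G.h M.F M.Chow := by
  letI := K.splitBase
  exact murreA_of_projectors M.isChowClass.summand
    (fun P a hP ha => nil_endo (F := M.F) M.isChowClass T.vectorLike M.unit_end hV hP a ha)
    (K.projectorsBase (numIsHom_of_voevodsky M.F hV))

lemma murreC_ext (hB : MurreB G.h N.F N.Chow) : MurreC G.h N.F N.Chow := by
  letI := K.monoidalPreadditive
  letI := K.rigid
  exact murreC_of_murreB (fun n hP hQ h1 h2 => ⟨K.hom hP hQ, K.hom_le n hP hQ h1 h2⟩) hB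

omit K in
lemma murreC_base (hB : MurreB G.h M.F M.Chow) : MurreC G.h M.F M.Chow := by
  refine murreC_of_murreB (fun {P Q} n hP hQ h1 h2 => ?_) hB
  refine ⟨M.isChowClass.tensor (M.isChowClass.dual hQ) hP, ?_⟩
  have h4 := G.graded.tensor (-(n + 1)) n (M.isChowClass.dual hQ) hP
    (G.graded.dual (n + 1) hQ h2) h1
  have h5 : -(n + 1) + n = -1 := by ring
  rwa [h5] at h4

/-- Voevodsky's conjecture and Murre's conjectures over `K` and over `k`. -/
theorem murre_full :
    (Voevodsky N.Chow ∧ MurreA G.h N.F N.Chow ∧ MurreB G.h N.F N.Chow ∧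
        MurreC G.h N.F N.Chow ∧ MurreD G.h N.F N.Chow) ↔
      (Voevodsky M.Chow ∧ MurreA G.h M.F M.Chow ∧ MurreB G.h M.F M.Chow ∧
        MurreC G.h M.F M.Chow ∧ MurreD G.h M.F M.Chow) := by
  constructor
  · rintro ⟨hV, -, hB, -, hD⟩
    have hV' := (voevodsky_iff N).1 hV
    have hB' := murreB_down N G hB
    exact ⟨hV', murreA_base K hV', hB', murreC_base hB', murreD_down N G hD⟩
  · rintro ⟨hV, hA, hB, -, hD⟩
    have hV' := (voevodsky_iff N).2 hV
    have hB' := murreB_up N G hA hV hB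
    exact ⟨hV', murreA_ext K hV', hB', murreC_ext K hB',
      murreD_up N G hA (homEqualsNum_of_numIsHom (numIsHom_of_voevodsky M.F hV)) hD⟩

/-- If rational and numerical equivalence agree over `k` then Voevodsky's conjecture and Murre's
conjectures hold over `K`. -/
theorem murre_of_rat (hr : RatIsNum M.Chow) :
    Voevodsky N.Chow ∧ MurreA G.h N.F N.Chow ∧ MurreB G.h N.F N.Chow ∧
      MurreC G.h N.F N.Chow ∧ MurreD G.h N.F N.Chow := by
  have hV : Voevodsky M.Chow := by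
    intro Q z hQ hz
    rw [hr Q z hQ hz]
    exact SmashNil.zero _
  have hD : MurreD G.h M.F M.Chow := by
    intro Q z hQ _ hz
    refine hr Q z hQ fun v => ?_
    apply unit_end_zero (F := M.F) M.unit_end T.vectorLike
    rw [Functor.map_comp, hz, comp_zero]
  have hB := murreB_of_murreD M.isChowClass G.graded hD
  exact (murre_full K).2 ⟨hV, murreA_base K hV, hB, murreC_base hB, hD⟩

/-- Voevodsky's conjecture and Murre's conjecture (B) over `K` and over `k`. -/
theorem murreB_iff :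
    (Voevodsky N.Chow ∧ MurreB G.h N.F N.Chow) ↔ (Voevodsky M.Chow ∧ MurreB G.h M.F M.Chow) := by
  constructor
  · rintro ⟨hV, hB⟩
    exact ⟨(voevodsky_iff N).1 hV, murreB_down N G hB⟩
  · rintro ⟨hV, hB⟩
    exact ⟨(voevodsky_iff N).2 hV, murreB_up N G (murreA_base K hV) hV hB⟩

end ext

end Pool.Agent.U435.SP
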