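import Pool.Agent.U435.SP.Mur2

/-!
# Murre's conjecture (B), both parts
-/

set_option autoImplicit false
set_option linter.unusedSectionVars false
set_option linter.unusedSimpArgs false
set_option linter.checkUnivs false
set_option backward.isDefEq.respectTransparency false
set_option backward.defeqAttrib.useBackward true

open CategoryTheory Limits MonoidalCategory Pretriangulated Triangulated
open Functor.LaxMonoidal Functor.OplaxMonoidal

namespace Pool.Agent.U435.SP

open Pool.Agent.U735.CV Pool.Agent.Y116.MT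

universe v u v' u' w

section defs

variable {C : Type u} [Category.{v} C] [Preadditive C] [MonoidalCategory C]
  {D : Type u'} [Category.{v'} D] [HasShift D ℤ] {E : Type w} [Field E]

/-- Murre's conjecture (B), part `F^(i+1) CH^i = 0`: the cycles of codimension `i` have no
component in degrees at least `i + 1`. Here `Cyc i` are the direct summands of the motives
`M(X)(-i)[-2i]`, `X` smooth projective. -/
def MurreTop (h : D ⥤ ModuleCat.{w} E) (F : C ⥤ D) (Cyc : ℤ → ObjectProperty C) : Prop :=
  ∀ (i : ℤ) (Q : C) (z : Q ⟶ 𝟙_ C), Cyc i Q → InGE h F Q (i + 1) → z = 0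

/-- The realisation of a motive in `Cyc i` in degrees at least `i + 1` is dominated by a motive
without cycles (the motive `M(Z)(-i)[-2i]` of a plane section `Z` of dimension less than `i`: weak
Lefschetz theorem). -/
def HasSmallSections (h : D ⥤ ModuleCat.{w} E) (F : C ⥤ D) (Chow : ObjectProperty C)
    (Cyc : ℤ → ObjectProperty C) : Prop :=
  ∀ (i : ℤ) (Q : C), Cyc i Q → InGE h F Q (i + 1) → Chow Q ∧ ∃ (P : C) (f : P ⟶ Q),
    Chow P ∧ Epi (F.map f) ∧ ∀ z : P ⟶ 𝟙_ C, z = 0

/-- Chow motives modulo homological equivalence are semisimple if homological and numerical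
equivalence agree (Jannsen): every morphism has a quasi-inverse. -/
def Jannsen (F : C ⥤ D) (Chow : ObjectProperty C) : Prop :=
  ∀ (P Q : C) (f : P ⟶ Q), Chow P → Chow Q → ∃ g : Q ⟶ P, F.map (f ≫ g ≫ f) = F.map f

end defs

section cover

variable {C : Type u} [Category.{v} C] [Preadditive C] [MonoidalCategory C]
  {D : Type u'} [Category.{v'} D] [Preadditive D] [HasShift D ℤ] {E : Type w} [Field E]
  {h : D ⥤ ModuleCat.{w} E} {F : C ⥤ D} [F.Additive] {Chow : ObjectProperty C}
  {Cyc : ℤ → ObjectProperty C}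

lemma murreTop_of_nil (hN : ∀ (P : C) (a : P ⟶ P), Chow P → F.map a = 0 → IsNilpotent (End.of a))
    (hj : Jannsen F Chow) (hs : HasSmallSections h F Chow Cyc) : MurreTop h F Cyc := by
  intro i Q z hQ hG
  obtain ⟨hC, P, f, hP, hf, hz⟩ := hs i Q hQ hG
  obtain ⟨g, hg⟩ := hj P Q f hP hC
  have h1 : F.map (g ≫ f) = 𝟙 _ := by
    rw [← cancel_epi (F.map f), ← Functor.map_comp, hg, Category.comp_id]
  have h3 : IsNilpotent (End.of (𝟙 Q - g ≫ f)) :=
    hN Q _ hC (by rw [Functor.map_sub, h1, CategoryTheory.Functor.map_id, sub_self])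
  have h4 : IsUnit (1 - End.of (𝟙 Q - g ≫ f)) := h3.isUnit_one_sub
  have h5 : (1 - End.of (𝟙 Q - g ≫ f) : End Q) = End.of (g ≫ f) := by
    change (𝟙 Q - (𝟙 Q - g ≫ f) : Q ⟶ Q) = g ≫ f
    abel
  rw [h5] at h4
  have h6 : IsIso (g ≫ f) := (isUnit_iff_isIso (C := C) _).1 h4
  rw [← cancel_epi (g ≫ f), Category.assoc, hz (f ≫ z), comp_zero, comp_zero]

end cover

section ext

variable {E : Type w} [Field E] [CharZero E] {T : Coefficients.{v', u', w} E}
  {M : BaseMotives.{v, u} T}

/-- The cycles of codimension `i` over `k` and over `K` (known facts: plane sections, and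
Jannsen's theorem over `K`). -/
structure CodimData (N : ExtensionMotives M) (G : Degrees N) where
  /-- the direct summands of the motives `M(X)(-i)[-2i]` over `k` -/
  cyc : ℤ → ObjectProperty M.C
  /-- the direct summands of the motives `M(X)(-i)[-2i]` over `K` -/
  cycExt : ℤ → ObjectProperty N.C
  sections : HasSmallSections G.h M.F M.Chow cyc
  sectionsExt : HasSmallSections G.h N.F N.Chow cycExt
  jannsenExt : NumIsHom N.Chow N.F → Jannsen N.F N.Chow

variable {N : ExtensionMotives M} {G : Degrees N} (K : KunnethData N G) (A : CodimData N G)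

include K in
/-- Voevodsky's conjecture and Murre's conjecture (B) over `K` and over `k`. -/
theorem murreB_full :
    (Voevodsky N.Chow ∧ MurreB G.h N.F N.Chow ∧ MurreTop G.h N.F A.cycExt) ↔
      (Voevodsky M.Chow ∧ MurreB G.h M.F M.Chow ∧ MurreTop G.h M.F A.cyc) := by
  constructor
  · rintro ⟨hV, hB, -⟩
    obtain ⟨hV', hB'⟩ := (murreB_iff K).1 ⟨hV, hB⟩
    have hn := homEqualsNum_of_numIsHom (numIsHom_of_voevodsky M.F hV')
    refine ⟨hV', hB', murreTop_of_nil
      (fun P a hP ha => nil_endo (F := M.F) M.isChowClass T.vectorLike M.unit_end hV' hP a ha)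
      (fun P Q f hP hQ => regular_hom M.isChowClass T.vectorLike M.unit_end hn M.nilTrace hP hQ f)
      A.sections⟩
  · rintro ⟨hV, hB, -⟩
    obtain ⟨hV', hB'⟩ := (murreB_iff K).2 ⟨hV, hB⟩
    letI := K.monoidalPreadditive
    letI := K.rigid
    letI := K.additive
    exact ⟨hV', hB', murreTop_of_nil
      (fun P a hP ha => nil_endo' (F := N.F) (fun _ hP => K.hom hP hP) K.unit_end hV' hP a ha)
      (A.jannsenExt (numIsHom_of_voevodsky N.F hV')) A.sectionsExt⟩

end ext

end Pool.Agent.U435.SP
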