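import Pool.Agent.U435.SP.Bundle2

/-!
# Murre's conjectures over a field and over an extension: definitions

Cycles on the Chow motive `Q` are morphisms `z : Q ⟶ 𝟙`; for `Q = M(X)(-i)[-2i]` they are the
elements of `CH^i(X)` with rational coefficients. The realisation of `M(X)(-i)[-2i]` has the dual
of `H^j(X)` in degree `2i - j`. If `X` has a Chow-Künneth decomposition `π`, the summand of
`M(X)(-i)[-2i]` given by the `π^j` with `j ≥ 2i` is in degrees `≤ 0`.
-/

set_option autoImplicit false

open CategoryTheory Limits MonoidalCategory Pretriangulated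
open Functor.LaxMonoidal Functor.OplaxMonoidal

namespace Pool.Agent.U435.SP

open Pool.Agent.U735.CV Pool.Agent.Y116.MT

universe v u v' u' w

section degrees

variable {C : Type u} [Category.{v} C]
  {D : Type u'} [Category.{v'} D] [HasShift D ℤ] {E : Type w} [Field E]
  (h : D ⥤ ModuleCat.{w} E) (F : C ⥤ D)

/-- The realisation of `X` is in degrees at most `n`. -/
def InLE (X : C) (n : ℤ) : Prop := ∀ m : ℤ, n < m → IsZero (h.obj ((F.obj X)⟦m⟧))

/-- The realisation of `X` is in degrees at least `n`. -/
def InGE (X : C) (n : ℤ) : Prop := ∀ m : ℤ, m < n → IsZero (h.obj ((F.obj X)⟦m⟧))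

/-- Murre's conjecture (A) for the motives in `Chow` (Chow-Künneth decompositions): for each `n`,
each `P` in `Chow` is a direct sum of `P₁` in degrees at most `n` and `P₂` in degrees at least
`n + 1`. -/
def MurreA [Preadditive C] (Chow : ObjectProperty C) : Prop :=
  ∀ P : C, Chow P → ∀ n : ℤ, ∃ (P₁ P₂ : C) (i₁ : P₁ ⟶ P) (p₁ : P ⟶ P₁) (i₂ : P₂ ⟶ P)
    (p₂ : P ⟶ P₂), Chow P₁ ∧ Chow P₂ ∧ InLE h F P₁ n ∧ InGE h F P₂ (n + 1) ∧
      i₁ ≫ p₁ = 𝟙 P₁ ∧ i₂ ≫ p₂ = 𝟙 P₂ ∧ p₁ ≫ i₁ + p₂ ≫ i₂ = 𝟙 P

/-- Murre's conjecture (B), part `F⁰ = CH`: there are no nonzero cycles on Chow motives in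
negative degrees. -/
def MurreB [Preadditive C] [MonoidalCategory C] (Chow : ObjectProperty C) : Prop :=
  ∀ (Q : C) (z : Q ⟶ 𝟙_ C), Chow Q → InLE h F Q (-1) → z = 0

/-- Murre's conjecture (D): homologically trivial cycles on Chow motives in degrees at most zero
are zero. -/
def MurreD [Preadditive C] [MonoidalCategory C] [Preadditive D] (Chow : ObjectProperty C) : Prop :=
  ∀ (Q : C) (z : Q ⟶ 𝟙_ C), Chow Q → InLE h F Q 0 → F.map z = 0 → z = 0

end degrees

section weights

variable {C : Type u} [Category.{v} C] [Preadditive C] [HasZeroObject C] [HasShift C ℤ]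
  [∀ n : ℤ, (shiftFunctor C n).Additive] [Pretriangulated C] [MonoidalCategory C]
  [RightRigidCategory C]
  {D : Type u'} [Category.{v'} D] [Preadditive D] [HasShift D ℤ] {E : Type w} [Field E]
  {Chow : ObjectProperty C} {F : C ⥤ D}

/-- The relation of the graded pieces `V.gr m` of the weight filtration of the zeroth cohomology
`h` of the realisation with the degrees (known facts). -/
structure IsGraded (h : D ⥤ ModuleCat.{w} E) (V : Weights Chow F E) : Prop where
  zero (m : ℤ) (X : C) : IsZero (h.obj (F.obj X)) → IsZero ((V.gr m).obj X)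
  map_zero {X Y : C} (f : X ⟶ Y) (m : ℤ) : F.map f = 0 → (V.gr m).map f = 0
  unit {P : C} (f : P ⟶ 𝟙_ C) : Chow P → InLE h F P 0 → (V.gr 0).map f = 0 → F.map f = 0
  tensor {P Q : C} (a b : ℤ) : Chow P → Chow Q → InLE h F P a → InLE h F Q b →
    InLE h F (P ⊗ Q) (a + b)
  dual {P : C} (a : ℤ) : Chow P → InGE h F P a → InLE h F Pᘁ (-a)
  bounded (P : C) : Chow P → ∃ a b : ℤ, InGE h F P a ∧ InLE h F P b

end weights

section spreading

variable {C : Type u} [Category.{v} C] [Preadditive C] [HasZeroObject C] [HasShift C ℤ]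
  [∀ n : ℤ, (shiftFunctor C n).Additive] [Pretriangulated C] [MonoidalCategory C]
  {C' : Type u} [Category.{v} C'] [Preadditive C'] [MonoidalCategory C']
  {D : Type u'} [Category.{v'} D] [Preadditive D] [HasShift D ℤ] {E : Type w} [Field E]

/-- Degrees and the functor `low` for motives over `U` (known facts): if the realisation of the
fibre of `Q` at `η` is in degrees at most `n`, so is the realisation of the total space `low Q`
(homology of `U` with coefficients in local systems); for `n = 0`, the realisation of a cycle on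
the total space is determined by the realisation of its restriction to the fibre (coinvariants of
the monodromy). -/
structure HasDegrees (h : D ⥤ ModuleCat.{w} E) (F : C ⥤ D) (F' : C' ⥤ D) (U : Model C C') :
    Prop where
  le (Q : U.M) (n : ℤ) : U.Chow Q → InLE h F' (U.gen.obj Q) n → InLE h F (U.low.obj Q) n
  edge (Q : U.M) (z : Q ⟶ 𝟙_ U.M) : U.Chow Q → InLE h F' (U.gen.obj Q) 0 →
    F'.map (U.gen.map z) = 0 → F.map (U.flat z) = 0

/-- Cycles over `K` come from cycles over smooth connected `k`-varieties `U`. -/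
def SpreadsWithDegrees (h : D ⥤ ModuleCat.{w} E) (Chow : ObjectProperty C)
    (Chow' : ObjectProperty C') (F : C ⥤ D) (F' : C' ⥤ D) : Prop :=
  ∀ (Q : C') (z : Q ⟶ 𝟙_ C'), Chow' Q → ∃ (U : Model C C') (Q₀ : U.M) (z₀ : Q₀ ⟶ 𝟙_ U.M),
    LowWeights U Chow ∧ HasDegrees h F F' U ∧ U.Chow Q₀ ∧ ComesFrom U z z₀

end spreading

/-- The zeroth cohomology `h` of the coefficients, the weights over `k`, the comparison of the
realisations over `k` and over `K`, and spreading out with degrees. -/
structure Degrees {E : Type w} [Field E] {T : Coefficients.{v', u', w} E}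
    {M : BaseMotives.{v, u} T} (N : ExtensionMotives M) where
  /-- the zeroth cohomology -/
  h : T.D ⥤ ModuleCat.{w} E
  /-- the weights -/
  weights : Weights M.Chow M.F E
  graded : IsGraded h weights
  /-- the comparison of the realisations over `k` and over `K` -/
  comparison : N.b ⋙ N.F ≅ M.F
  spreads : SpreadsWithDegrees h M.Chow N.Chow M.F N.F

end Pool.Agent.U435.SP
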