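import Pool.Agent.U435.SP.Defs

/-!
# Smash-nilpotence and functors
-/

set_option autoImplicit false
set_option linter.unusedSectionVars false

open CategoryTheory Limits MonoidalCategory
open Functor.LaxMonoidal Functor.OplaxMonoidal

namespace Pool.Agent.U435.SP

universe v u v' u'

section

variable {C : Type u} [Category.{v} C] [Preadditive C] [MonoidalCategory C]

lemma sq_comp {Q Q' : C} (e : Q' ⟶ Q) (z : Q ⟶ 𝟙_ C) : sq (e ≫ z) = (e ⊗ₘ e) ≫ sq z := by
  simp only [sq, ← Category.assoc, tensorHom_comp_tensorHom]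

lemma SmashNil.precomp {Q : C} {z : Q ⟶ 𝟙_ C} (h : SmashNil z) :
    ∀ {Q' : C} (e : Q' ⟶ Q), SmashNil (e ≫ z) := by
  induction h with
  | zero Q => intro Q' e; rw [comp_zero]; exact SmashNil.zero Q'
  | step z _ ih => intro Q' e; exact SmashNil.step _ (by rw [sq_comp]; exact ih _)

lemma smashNil_of_unit (h : (𝟙 (𝟙_ C) : 𝟙_ C ⟶ 𝟙_ C) = 0) {Q : C} (z : Q ⟶ 𝟙_ C) :
    SmashNil z := by
  have : z = 0 := by rw [← Category.comp_id z, h, comp_zero]
  rw [this]
  exact SmashNil.zero Q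

variable {M : Type u'} [Category.{v'} M] [Preadditive M] [MonoidalCategory M]
  (G : C ⥤ M) [G.Monoidal]

lemma sq_map {Q : C} (z : Q ⟶ 𝟙_ C) :
    sq (G.map z ≫ η G) = μ G Q Q ≫ G.map (sq z) ≫ η G := by
  have h1 : μ G (𝟙_ C) (𝟙_ C) ≫ G.map (λ_ (𝟙_ C)).hom ≫ η G =
      (η G ⊗ₘ η G) ≫ (λ_ (𝟙_ M)).hom := by
    have h2 := Functor.LaxMonoidal.left_unitality G (𝟙_ C)
    have h3 : (η G ▷ G.obj (𝟙_ C)) ≫ (λ_ (G.obj (𝟙_ C))).hom =
        μ G (𝟙_ C) (𝟙_ C) ≫ G.map (λ_ (𝟙_ C)).hom := by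
      rw [h2, ← Category.assoc, ← comp_whiskerRight]
      simp
    rw [← Category.assoc, ← h3, Category.assoc, ← leftUnitor_naturality, MonoidalCategory.tensorHom_def,
      Category.assoc]
  simp only [sq, Functor.map_comp, Category.assoc]
  rw [← μ_natural_assoc, h1, ← Category.assoc, tensorHom_comp_tensorHom]

lemma SmashNil.map [G.Additive] {Q : C} {z : Q ⟶ 𝟙_ C} (h : SmashNil z) :
    SmashNil (G.map z ≫ η G) := by
  induction h with
  | zero Q => rw [Functor.map_zero, zero_comp]; exact SmashNil.zero _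
  | step z _ ih => exact SmashNil.step _ (by rw [sq_map]; exact ih.precomp _)

lemma SmashNil.of_map [G.Faithful] [G.Additive] {A : M} {w : A ⟶ 𝟙_ M} (h : SmashNil w) :
    ∀ {Q : C} (z : Q ⟶ 𝟙_ C) (e : G.obj Q ⟶ A), e ≫ w = G.map z ≫ η G → SmashNil z := by
  induction h with
  | zero A =>
    intro Q z e he
    have h1 : G.map z = 0 := by
      rw [← cancel_mono (η G), ← he, comp_zero, zero_comp]
    have h2 : z = 0 := G.map_injective (by rw [h1, Functor.map_zero])
    rw [h2]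
    exact SmashNil.zero Q
  | step w _ ih =>
    intro Q z e he
    refine SmashNil.step _ (ih (sq z) (δ G Q Q ≫ (e ⊗ₘ e)) ?_)
    rw [Category.assoc, ← sq_comp, he, sq_map]
    simp

end

end Pool.Agent.U435.SP
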