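import Pool.Agent.U435.SP.Nil
import Pool.Agent.U735.CV.Main

/-!
# Motives of weights at most zero, and numerical equivalence over the base field
-/

set_option autoImplicit false
set_option linter.unusedSectionVars false
set_option linter.unusedSimpArgs false
set_option backward.isDefEq.respectTransparency false
set_option backward.defeqAttrib.useBackward true

open CategoryTheory Limits MonoidalCategory Pretriangulated Triangulated
open Functor.LaxMonoidal Functor.OplaxMonoidal

namespace Pool.Agent.U435.SP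

open Pool.Agent.U735.CV Pool.Agent.Y116.MT

universe v u v' u' w

section rigid

variable {C : Type u} [Category.{v} C] [Preadditive C] [MonoidalCategory C]

/-- The cycle on the dual. -/
def dualCycle {P : C} (Q : C) [ExactPairing P Q] (z : 𝟙_ C ⟶ P) : Q ⟶ 𝟙_ C :=
  (ρ_ Q).inv ≫ Q ◁ z ≫ ε_ P Q

lemma dualCycle_test {Q P : C} [ExactPairing P Q] (z : 𝟙_ C ⟶ P) (v : 𝟙_ C ⟶ Q) :
    v ≫ dualCycle Q z = z ≫ (λ_ P).inv ≫ v ▷ P ≫ ε_ P Q := by
  have h1 : v ≫ (ρ_ Q).inv = (ρ_ (𝟙_ C)).inv ≫ v ▷ 𝟙_ C := by simp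
  have h2 : z ≫ (λ_ P).inv = (λ_ (𝟙_ C)).inv ≫ 𝟙_ C ◁ z := by simp
  rw [dualCycle, reassoc_of% h1, reassoc_of% h2, whisker_exchange_assoc, unitors_inv_equal]

lemma of_dualCycle {Q P : C} [ExactPairing P Q] (z : 𝟙_ C ⟶ P) :
    z = η_ P Q ≫ P ◁ dualCycle Q z ≫ (ρ_ P).hom := by
  have h1 : η_ P Q ≫ P ◁ (ρ_ Q).inv ≫ P ◁ Q ◁ z =
      (ρ_ (𝟙_ C)).inv ≫ 𝟙_ C ◁ z ≫ η_ P Q ▷ P ≫ (α_ P Q P).hom := by
    rw [whisker_exchange_assoc]
    simp
  simp only [dualCycle, MonoidalCategory.whiskerLeft_comp, Category.assoc]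
  rw [reassoc_of% h1, ExactPairing.evaluation_coevaluation_assoc]
  simp [unitors_equal]

variable {D : Type u'} [Category.{v'} D] [Preadditive D] [MonoidalCategory D]
  [MonoidalPreadditive D] (F : C ⥤ D) [F.Monoidal]

lemma map_zero_of_dualCycle {Q P : C} [ExactPairing P Q] (z : 𝟙_ C ⟶ P)
    (h : F.map (dualCycle Q z) = 0) : F.map z = 0 := by
  have h1 : F.map (P ◁ dualCycle Q z) = 0 := by
    rw [Functor.Monoidal.map_whiskerLeft, h]
    simp
  rw [of_dualCycle (Q := Q) z, Functor.map_comp, Functor.map_comp, h1]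
  simp

end rigid

section nilF

variable {D : Type u'} [Category.{v'} D] [Preadditive D] [MonoidalCategory D]
  [MonoidalPreadditive D]

lemma eq_zero_of_smashNil (hs : HasSections D) (hD : (𝟙 (𝟙_ D) : 𝟙_ D ⟶ 𝟙_ D) ≠ 0) {X : D}
    {w : X ⟶ 𝟙_ D} (h : SmashNil w) : w = 0 := by
  induction h with
  | zero X => rfl
  | step w _ ih =>
    by_contra hw
    obtain ⟨s, hs'⟩ := hs _ w hw
    have h1 : (s ⊗ₘ s) ≫ sq w = (λ_ (𝟙_ D)).hom := by
      rw [← sq_comp, hs', sq]
      simp
    rw [ih, comp_zero] at h1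
    apply hD
    rw [← Iso.inv_hom_id (λ_ (𝟙_ D)), ← h1, comp_zero]

end nilF

section weights

variable {C : Type u} [Category.{v} C] [Preadditive C] [HasZeroObject C] [HasShift C ℤ]
  [∀ n : ℤ, (shiftFunctor C n).Additive] [Pretriangulated C] [IsTriangulated C]
  [MonoidalCategory C] [SymmetricCategory C] [TensorTriangulated C] [MonoidalPreadditive C]
  [RightRigidCategory C] [Linear ℚ C]
  {D : Type u'} [Category.{v'} D] [Preadditive D] [HasZeroObject D] [HasShift D ℤ]
  [∀ n : ℤ, (shiftFunctor D n).Additive] [Pretriangulated D] [MonoidalCategory D]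
  [SymmetricCategory D] [MonoidalPreadditive D] {E : Type w} [Field E] [CharZero E] [Linear E D]
  [MonoidalLinear E D]
  {Chow : ObjectProperty C} {F : C ⥤ D} [F.Braided] [F.Additive] [F.CommShift ℤ]
  [F.IsTriangulated]

lemma smashNil_map_zero (hs : HasSections D) (hD : IsVectorLike E D) {Q : C} {z : Q ⟶ 𝟙_ C}
    (h : SmashNil z) : F.map z = 0 := by
  have h1 := eq_zero_of_smashNil hs hD.unit_ne (h.map F)
  rwa [← cancel_mono (η F), zero_comp]

lemma homEqualsNum (hC : IsChowClass Chow) (hs : HasSections D) (hD : IsVectorLike E D)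
    (hV : Voevodsky Chow) : HomEqualsNum Chow F := by
  intro P z hP hz
  apply map_zero_of_dualCycle (Q := Pᘁ) F z
  apply smashNil_map_zero (E := E) hs hD
  refine hV _ _ (hC.dual hP) fun v => ?_
  rw [dualCycle_test, ← Category.assoc, ← Category.assoc, Category.assoc z]
  have h1 := hz ((λ_ P).inv ≫ v ▷ P ≫ ε_ P Pᘁ)
  simpa using h1

/-- Endomorphisms of the unit with zero realisation are zero. -/
lemma unit_end_zero (hQ : ∀ e : 𝟙_ C ⟶ 𝟙_ C, ∃ q : ℚ, e = q • 𝟙 (𝟙_ C))
    (hD : IsVectorLike E D) (c : 𝟙_ C ⟶ 𝟙_ C) (h : F.map c = 0) : c = 0 := by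
  obtain ⟨q, rfl⟩ := hQ c
  by_cases hq : q = 0
  · rw [hq, zero_smul]
  · exfalso
    have h1 : F.map (𝟙 (𝟙_ C)) = 0 := by
      have h2 : (𝟙 (𝟙_ C) : 𝟙_ C ⟶ 𝟙_ C) = q⁻¹ • (q • 𝟙 (𝟙_ C)) := by
        rw [smul_smul, inv_mul_cancel₀ hq, one_smul]
      rw [h2]
      have h3 : (q⁻¹ • (q • 𝟙 (𝟙_ C)) : 𝟙_ C ⟶ 𝟙_ C) = (q • 𝟙 (𝟙_ C)) ≫ (q⁻¹ • 𝟙 (𝟙_ C)) := by
        simp [smul_smul]
      rw [h3, Functor.map_comp, h, zero_comp]
    apply hD.unit_ne
    rw [← Functor.Monoidal.ε_η F, ← Category.comp_id (ε F)]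
    have h4 : 𝟙 (F.obj (𝟙_ C)) = 0 := by rw [← CategoryTheory.Functor.map_id, h1]
    rw [h4, comp_zero, zero_comp]

/-- A class built from `P₀, P₁⟦-1⟧, …` has no morphisms to `𝟙⟦m⟧`, `m > 0`. -/
lemma hom_unit_zero (hC : IsChowClass Chow) (n : ℕ) : ∀ (X : C), ChowComplex Chow n X →
    ∀ m : ℤ, 0 < m → ∀ f : X ⟶ (𝟙_ C)⟦m⟧, f = 0 := by
  induction n with
  | zero =>
    intro X hX m _ f
    exact IsZero.eq_of_src hX _ _
  | succ n ih =>
    rintro X ⟨P, Y, e, h, i, hP, hY, hT⟩ m hm f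
    obtain ⟨l, hl⟩ := ye1' hT f (by
      have h1 := ih Y hY (m + 1) (by omega)
        ((i ≫ f⟦(1 : ℤ)⟧') ≫ (shiftFunctorAdd' C m 1 (m + 1) rfl).inv.app (𝟙_ C))
      rwa [← cancel_mono ((shiftFunctorAdd' C m 1 (m + 1) rfl).inv.app (𝟙_ C)), zero_comp])
    rw [hl, hC.negative m hP hC.unit hm l, comp_zero]

variable (W : WeightZero Chow F E)

include W

lemma H_shift_zero (n : ℕ) : ∀ (X : C), ChowComplex Chow n X →
    ∀ i : ℤ, i < 0 → IsZero (W.H.obj (X⟦i⟧)) := by
  induction n with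
  | zero =>
    intro X hX i _
    have := W.homological
    exact W.H.map_isZero ((shiftFunctor C i).map_isZero hX)
  | succ n ih =>
    rintro X ⟨P, Y, e, h, k, hP, hY, hT⟩ i hi
    have := W.homological
    exact hz1 W.H hT i (W.pure P i hP hi.ne) (ih Y hY (i - 1) (by omega))

/-- Classes with nonzero realisation in an object of weights at most zero are detected by
morphisms to the unit. -/
lemma exists_functional (hn : HomEqualsNum Chow F) (n : ℕ) (X : C) (hX : ChowComplex Chow n X)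
    (f : 𝟙_ C ⟶ X) (hf : F.map f ≠ 0) : ∃ w : X ⟶ 𝟙_ C, f ≫ w ≠ 0 := by
  cases n with
  | zero =>
    exfalso
    have hX0 : IsZero X := hX
    apply hf
    rw [hX0.eq_of_tgt f 0, Functor.map_zero]
  | succ n =>
    obtain ⟨P, Y, e, h, i, hP, hY, hT⟩ := hX
    have := W.homological
    have h1 : Mono (W.H.map (e⟦(0 : ℤ)⟧')) :=
      hmono1 W.H hT 0 (H_shift_zero W n Y hY (0 - 1) (by omega))
    have h2 : Mono (W.H.map e) := by
      have h3 : W.H.map e = W.H.map ((shiftFunctorZero C ℤ).inv.app X) ≫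
          W.H.map (e⟦(0 : ℤ)⟧') ≫ W.H.map ((shiftFunctorZero C ℤ).hom.app P) := by
        rw [← Functor.map_comp, ← Functor.map_comp, NatTrans.naturality]
        simp
      rw [h3]
      exact mono_comp _ _
    have h3 : F.map (f ≫ e) ≠ 0 := by
      intro h4
      apply hf
      apply W.unit
      have h5 := W.map_zero _ h4
      rw [Functor.map_comp] at h5
      rwa [← cancel_mono (W.H.map e), zero_comp]
    by_contra hcon
    push Not at hcon
    exact h3 (hn P (f ≫ e) hP fun r => by rw [Category.assoc]; exact hcon _)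

/-- A morphism from an object of weights at most zero to the unit with zero realisation factors
through a numerically trivial cycle on a Chow motive. -/
lemma factor_numTrivial (hC : IsChowClass Chow) (hD : IsVectorLike E D)
    (hQ : ∀ e : 𝟙_ C ⟶ 𝟙_ C, ∃ q : ℚ, e = q • 𝟙 (𝟙_ C)) (hn : HomEqualsNum Chow F)
    (ht : NilTrace Chow F) (n : ℕ) (X : C) (hX : ChowComplex Chow n X) (g : X ⟶ 𝟙_ C)
    (hg : F.map g = 0) : ∃ (P : C) (e : X ⟶ P) (z : P ⟶ 𝟙_ C), Chow P ∧ NumTrivial z ∧
      g = e ≫ z := by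
  have num : ∀ {P : C} (z : P ⟶ 𝟙_ C), W.H.map z = 0 → NumTrivial z := by
    intro P z hz v
    apply unit_end_zero (F := F) hQ hD
    apply W.unit
    rw [Functor.map_comp, hz, comp_zero]
  cases n with
  | zero =>
    have hX0 : IsZero X := hX
    exact ⟨𝟙_ C, 0, 0, hC.unit, fun v => comp_zero, hX0.eq_of_src _ _⟩
  | succ n =>
    obtain ⟨P, Y, e, h, i, hP, hY, hT⟩ := hX
    have := W.homological
    obtain ⟨z, hz⟩ := ye1' hT g (hom_unit_zero hC n Y hY 1 (by omega) _)
    -- the functional `H(z)` vanishes on the kernel of `H(h)`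
    have hex := W.H.map_distinguished_exact _ hT
    have hker : ∀ x : W.H.obj P, W.H.map h x = 0 → W.H.map z x = 0 := by
      intro x hx
      have h1 := (ShortComplex.moduleCat_exact_iff _).1 hex x hx
      obtain ⟨y, hy⟩ := h1
      have h2 : W.H.map e y = x := hy
      have h3 : W.H.map e ≫ W.H.map z = 0 := by
        rw [← Functor.map_comp, ← hz, W.map_zero _ hg]
      rw [← h2, ← ConcreteCategory.comp_apply, h3]
      rfl
    cases n with
    | zero =>
      have hY0 : IsZero Y := hY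
      refine ⟨P, e, z, hP, num z ?_, hz⟩
      ext x
      exact hker x (by
        rw [hY0.eq_of_tgt h 0, Functor.map_zero]
        rfl)
    | succ n =>
      obtain ⟨P', Y', e', h', i', hP', hY', hT'⟩ := hY
      have h1 : Mono (W.H.map (e'⟦(0 : ℤ)⟧')) :=
        hmono1 W.H hT' 0 (H_shift_zero W n Y' hY' (0 - 1) (by omega))
      have h2 : Mono (W.H.map e') := by
        have h3 : W.H.map e' = W.H.map ((shiftFunctorZero C ℤ).inv.app Y) ≫
            W.H.map (e'⟦(0 : ℤ)⟧') ≫ W.H.map ((shiftFunctorZero C ℤ).hom.app P') := by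
          rw [← Functor.map_comp, ← Functor.map_comp, NatTrans.naturality]
          simp
        rw [h3]
        exact mono_comp _ _
      have hinj := (ModuleCat.mono_iff_injective _).1 h2
      obtain ⟨s, hs⟩ := regular_hom hC hD hQ hn ht hP hP' (h ≫ e')
      have hs' : W.H.map ((h ≫ e') ≫ s ≫ h ≫ e') = W.H.map (h ≫ e') := by
        have h4 : F.map ((h ≫ e') ≫ s ≫ h ≫ e' - h ≫ e') = 0 := by
          rw [Functor.map_sub, hs, sub_self]
        have h5 := W.map_zero _ h4
        have : W.H.Additive := inferInstance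
        rwa [Functor.map_sub, sub_eq_zero] at h5
      refine ⟨P, e, z - (h ≫ e') ≫ s ≫ z, hP, num _ ?_, ?_⟩
      · have : W.H.Additive := inferInstance
        ext x
        have h6 : W.H.map (z - (h ≫ e') ≫ s ≫ z) x =
            W.H.map z (x - W.H.map ((h ≫ e') ≫ s) x) := by
          rw [Functor.map_sub, map_sub]
          rw [← ConcreteCategory.comp_apply, ← Functor.map_comp]
          simp only [Category.assoc]
          rfl
        refine h6.trans (hker _ ?_)
        apply hinj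
        rw [map_zero, ← ConcreteCategory.comp_apply, ← Functor.map_comp, map_sub, sub_eq_zero,
          ← ConcreteCategory.comp_apply, ← Functor.map_comp, Category.assoc, hs']
      · rw [hz, Preadditive.comp_sub, ← Category.assoc e, ← Category.assoc e, comp12 hT]
        simp

end weights

end Pool.Agent.U435.SP
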